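import Pool.Agent.H91.RF.TargetsR
import Pool.Agent.H35.RD.Base

/-!
# SOL1: existence of one-dimensional decreasing solutions
-/

open MeasureTheory Set Filter Topology Metric
open Pool.Agent.H29.TF (hk P)
open Pool.Agent.H91.RD
open Pool.Agent.H91.RF

namespace Pool.Agent.H30.RF

/-- the unit vector of `E 1` -/
noncomputable def e1 : E 1 := EuclideanSpace.single 0 1

theorem e1_apply : e1 0 = 1 := by simp [e1]

theorem norm_e1 : ‖e1‖ = 1 := by simp [e1]

theorem smul_e1_apply (z : ℝ) : (z • e1 : E 1) 0 = z := by simp [e1]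

theorem eq_smul_e1 (x : E 1) : x = (x 0) • e1 := by
  ext i
  have : i = 0 := Subsingleton.elim _ _
  subst this
  rw [smul_e1_apply]

theorem norm_eq_abs0 (x : E 1) : ‖x‖ = |x 0| := by
  conv_lhs => rw [eq_smul_e1 x]
  rw [norm_smul, norm_e1, mul_one, Real.norm_eq_abs]

/-- coordinates, as a measurable equivalence -/
noncomputable def me1 : E 1 ≃ᵐ ℝ :=
  (MeasurableEquiv.toLp 2 (Fin 1 → ℝ)).symm.trans (MeasurableEquiv.funUnique (Fin 1) ℝ)

theorem me1_apply (x : E 1) : me1 x = x 0 := rfl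

theorem mp1 : MeasurePreserving me1 volume volume :=
  (volume_preserving_funUnique (Fin 1) ℝ).comp
    (EuclideanSpace.volume_preserving_symm_measurableEquiv_toLp (Fin 1))

section calc1

variable {F : E 1 → ℝ}

theorem hasDerivAt_line (hF : ContDiff ℝ 2 F) (z : ℝ) :
    HasDerivAt (fun s : ℝ => F (s • e1)) (fderiv ℝ F (z • e1) e1) z := by
  have h1 : HasFDerivAt F (fderiv ℝ F (z • e1)) (z • e1) :=
    (hF.differentiable (by norm_num) _).hasFDerivAt
  have h2 : HasDerivAt (fun s : ℝ => (s • e1 : E 1)) e1 z := by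
    simpa using (hasDerivAt_id z).smul_const e1
  exact h1.comp_hasDerivAt z h2

theorem deriv_line (hF : ContDiff ℝ 2 F) :
    deriv (fun s : ℝ => F (s • e1)) = fun z => fderiv ℝ F (z • e1) e1 := by
  ext z
  exact (hasDerivAt_line hF z).deriv

theorem hasDerivAt_line2 (hF : ContDiff ℝ 2 F) (z : ℝ) :
    HasDerivAt (fun s : ℝ => fderiv ℝ F (s • e1) e1)
      (iteratedFDeriv ℝ 2 F (z • e1) ![e1, e1]) z := by
  have h0 : ContDiff ℝ 1 (fderiv ℝ F) := hF.fderiv_right (by norm_num)
  have h1 : HasFDerivAt (fderiv ℝ F) (fderiv ℝ (fderiv ℝ F) (z • e1)) (z • e1) :=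
    (h0.differentiable (by norm_num) _).hasFDerivAt
  have h2 : HasDerivAt (fun s : ℝ => (s • e1 : E 1)) e1 z := by
    simpa using (hasDerivAt_id z).smul_const e1
  have h3 := h1.comp_hasDerivAt z h2
  have h4 := h3.clm_apply (hasDerivAt_const z e1)
  rw [iteratedFDeriv_two_apply]
  simpa using h4

theorem deriv2_line (hF : ContDiff ℝ 2 F) :
    deriv (deriv (fun s : ℝ => F (s • e1))) =
      fun z => iteratedFDeriv ℝ 2 F (z • e1) ![e1, e1] := by
  rw [deriv_line hF]
  ext z
  exact (hasDerivAt_line2 hF z).deriv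

theorem laplacian_line (F : E 1 → ℝ) (x : E 1) :
    Laplacian.laplacian F x = iteratedFDeriv ℝ 2 F x ![e1, e1] := by
  rw [InnerProductSpace.laplacian_eq_iteratedFDeriv_orthonormalBasis F
    (EuclideanSpace.basisFun (Fin 1) ℝ)]
  simp [e1]

end calc1

section mono

variable {f g : ℝ → ℝ} {K : ℝ} {w : ℝ → E 1 → ℝ}

theorem shift_mild (hTR : T_TR) (hw : Mild f 0 w) (r : ℝ) :
    Mild f 0 (fun t x => w t (r • e1 + x)) := by
  have h := hTR 1 f 0 0 (r • e1) w hw
  simpa using h

theorem w0_anti (hg : Antitone g) (h0 : w 0 = fun x => g (x 0)) {r : ℝ} (hr : 0 ≤ r) (y : E 1) :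
    w 0 (r • e1 + y) ≤ w 0 y := by
  rw [h0]
  apply hg
  show y 0 ≤ (r • e1 + y) 0
  have : (r • e1 + y : E 1) 0 = r + y 0 := by
    rw [PiLp.add_apply, smul_e1_apply]
  rw [this]
  linarith

theorem anti_w (hTR : T_TR) (hCMP : T_CMP) (hf : Lip f K) (hg : Antitone g) (hw : Mild f 0 w)
    (h0 : w 0 = fun x => g (x 0)) {r : ℝ} (hr : 0 ≤ r) {t : ℝ} (ht : 0 ≤ t) (x : E 1) :
    w t (r • e1 + x) ≤ w t x := by
  rcases ht.eq_or_lt with h | h
  · rw [← h]
    exact w0_anti hg h0 hr x
  · have key := hCMP 1 f K K 0 0 t _ w hf le_rfl h (shift_mild hTR hw r) hw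
      (fun q _ y hy => by
        have h2 := (le_abs_self _).trans (hf.lip (w q (r • e1 + y)) (w q y))
        have h3 : 0 < w q (r • e1 + y) - w q y := by
          have : w q y < w q (r • e1 + y) := hy
          linarith
        rwa [abs_of_pos h3] at h2) x
    have e2 : (fun y => max (w 0 (r • e1 + y) - w 0 y) 0) = fun _ : E 1 => (0 : ℝ) := by
      ext y
      exact max_eq_right (by linarith [w0_anti hg h0 hr y])
    have e3 : P (t - 0) (fun y => max (w 0 (r • e1 + y) - w 0 y) 0) x = 0 := by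
      rw [e2]
      unfold P
      simp
    have key' : w t (r • e1 + x) - w t x ≤
        Real.exp (K * (t - 0)) * P (t - 0) (fun y => max (w 0 (r • e1 + y) - w 0 y) 0) x := key
    rw [e3, mul_zero] at key'
    linarith

/-- lower bound of the difference -/
theorem diff_low (hTR : T_TR) (hCMP : T_CMP) (hSH : T_SH) (hf : Lip f K) (hg : Antitone g)
    (hw : Mild f 0 w) (h0 : w 0 = fun x => g (x 0)) {r : ℝ} (hr : 0 ≤ r) {s t : ℝ} (hs : 0 < s)
    (hst : s < t) (x : E 1) :
    Real.exp (-(K * (t - s))) * P (t - s) (fun y => w s y - w s (r • e1 + y)) x ≤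
      w t x - w t (r • e1 + x) := by
  obtain ⟨M, hM⟩ := hw.bdd
  have hM0 : 0 ≤ M := (abs_nonneg _).trans (hM 0 le_rfl 0)
  have hK := hf.K0
  have hw' := shift_mild hTR hw r
  have hsub : Ioc s t ×ˢ (univ : Set (E 1)) ⊆ Ioi 0 ×ˢ univ :=
    prod_mono (fun r hr => by
      have := hr.1
      show 0 < r
      linarith) (subset_refl _)
  have hb : ∀ q ∈ Icc s t, ∀ x, |w q x - w q (r • e1 + x)| ≤ 2 * M := by
    intro q hq x
    have a1 := hM q (by linarith [hq.1]) x
    have a2 := hM q (by linarith [hq.1]) (r • e1 + x)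
    calc |w q x - w q (r • e1 + x)| ≤ |w q x| + |w q (r • e1 + x)| := abs_sub _ _
      _ ≤ 2 * M := by linarith
  have key := hSH 1 K ((1 + K) * (2 * M)) s t (fun q x => w q x - w q (r • e1 + x))
    (fun q x => f (w q x) - f (w q (r • e1 + x))) hst
    ((Pool.Agent.H35.RD.mild_meas hw hs.le).sub (Pool.Agent.H35.RD.mild_meas hw' hs.le))
    (fun q hq x => (hb q hq x).trans (by nlinarith))
    (fun q hq x => (hf.lip _ _).trans (by nlinarith [hb q hq x]))
    ((hw.cont.mono hsub).sub (hw'.cont.mono hsub))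
    (((Pool.Agent.H35.RD.mild_comp_cont hf hw).mono hsub).sub
      ((Pool.Agent.H35.RD.mild_comp_cont hf hw').mono hsub))
    ?_ t ⟨hst, le_rfl⟩ x
  · have key' : w t x - w t (r • e1 + x) =
        Real.exp (-(K * (t - s))) * P (t - s) (fun y => w s y - w s (r • e1 + y)) x +
        ∫ q in s..t, Real.exp (-(K * (t - q))) * P (t - q) (fun y =>
          (f (w q y) - f (w q (r • e1 + y))) + K * (w q y - w q (r • e1 + y))) x := key
    have hnn : 0 ≤ ∫ q in s..t, Real.exp (-(K * (t - q))) * P (t - q) (fun y =>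
          (f (w q y) - f (w q (r • e1 + y))) + K * (w q y - w q (r • e1 + y))) x := by
      apply intervalIntegral.integral_nonneg hst.le
      intro q hq
      apply mul_nonneg (Real.exp_pos _).le
      rcases hq.2.eq_or_lt with h | h
      · apply Pool.Agent.H29.TF.P_nonneg (by linarith)
        intro y
        have h2 := hf.lip (w q y) (w q (r • e1 + y))
        have h3 := anti_w hTR hCMP hf hg hw h0 hr (by linarith [hq.1] : 0 ≤ q) y
        rw [abs_of_nonneg (by linarith : 0 ≤ w q y - w q (r • e1 + y))] at h2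
        linarith [neg_abs_le (f (w q y) - f (w q (r • e1 + y)))]
      · apply Pool.Agent.H29.TF.P_nonneg (by linarith)
        intro y
        have h2 := hf.lip (w q y) (w q (r • e1 + y))
        have h3 := anti_w hTR hCMP hf hg hw h0 hr (by linarith [hq.1] : 0 ≤ q) y
        rw [abs_of_nonneg (by linarith : 0 ≤ w q y - w q (r • e1 + y))] at h2
        linarith [neg_abs_le (f (w q y) - f (w q (r • e1 + y)))]
    linarith
  · intro q hq x
    have d1 := hw.duh s q hs.le hq.1 x
    have d2 := hw'.duh s q hs.le hq.1 x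
    have d2' : w q (r • e1 + x) = P (q - s) (fun y => w s (r • e1 + y)) x +
      ∫ p in s..q, P (q - p) (fun y => f (w p (r • e1 + y))) x := d2
    show w q x - w q (r • e1 + x) = P (q - s) (fun y => w s y - w s (r • e1 + y)) x +
      ∫ p in s..q, P (q - p) (fun y => f (w p y) - f (w p (r • e1 + y))) x
    rw [d1, d2', Pool.Agent.H29.TF.P_sub x
      (Pool.Agent.H29.TF.integrable_hk_mul (by linarith [hq.1])
        (Pool.Agent.H35.RD.mild_meas hw hs.le).aestronglyMeasurable (hM s hs.le) x)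
      (Pool.Agent.H29.TF.integrable_hk_mul (by linarith [hq.1])
        (Pool.Agent.H35.RD.mild_meas hw' hs.le).aestronglyMeasurable
        (fun y => hM s hs.le (r • e1 + y)) x)]
    have e3 : ∫ p in s..q, P (q - p) (fun y => f (w p y) - f (w p (r • e1 + y))) x =
        (∫ p in s..q, P (q - p) (fun y => f (w p y)) x) -
          ∫ p in s..q, P (q - p) (fun y => f (w p (r • e1 + y))) x := by
      rw [← intervalIntegral.integral_sub (Pool.Agent.H35.RD.ii_mild hf hw hs.le hq.1.le x)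
        (Pool.Agent.H35.RD.ii_mild hf hw' hs.le hq.1.le x)]
      apply intervalIntegral.integral_congr_ae
      have hne : ∀ᵐ p : ℝ, p ≠ q := by
        rw [ae_iff]
        have : {a : ℝ | ¬ a ≠ q} = {q} := by ext p; simp
        rw [this]
        exact Real.volume_singleton
      filter_upwards [hne] with p hp hp2
      rw [uIoc_of_le hq.1.le] at hp2
      have hpq : p < q := lt_of_le_of_ne hp2.2 hp
      have hap : 0 < p := by linarith [hp2.1]
      refine Pool.Agent.H29.TF.P_sub x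
        (Pool.Agent.H29.TF.integrable_hk_mul (C := K * M) (by linarith)
          (hf.continuous.comp (Pool.Agent.H35.RD.mild_slice hw hap)).aestronglyMeasurable
          (fun y => ?_) x)
        (Pool.Agent.H29.TF.integrable_hk_mul (C := K * M) (by linarith)
          (hf.continuous.comp (Pool.Agent.H35.RD.mild_slice hw' hap)).aestronglyMeasurable
          (fun y => ?_) x)
      · exact (hf.abs_le _).trans (mul_le_mul_of_nonneg_left (hM p hap.le y) hK.le)
      · exact (hf.abs_le _).trans (mul_le_mul_of_nonneg_left (hM p hap.le _) hK.le)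
    rw [e3]
    ring

theorem tendsto_P0 {t : ℝ} (ht : 0 < t) {G : ℝ → ℝ} (hGm : Measurable G)
    (hG : ∀ s, 0 ≤ G s ∧ G s ≤ 1) {l : Filter ℝ} [l.IsCountablyGenerated]
    (hl : ∀ c, Tendsto (fun z => G (z - c)) l (𝓝 0)) :
    Tendsto (fun z : ℝ => P t (fun y : E 1 => G (y 0)) (z • e1)) l (𝓝 0) := by
  have h1 : ∀ z : ℝ, P t (fun y : E 1 => G (y 0)) (z • e1) = ∫ y : E 1, hk t y * G (z - y 0) := by
    intro z
    rw [Pool.Agent.H29.TF.P_eq_conv]
    congr 1
    ext y
    have : (z • e1 - y : E 1) 0 = z - y 0 := by rw [PiLp.sub_apply, smul_e1_apply]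
    rw [this]
  simp_rw [h1]
  have h2 : (0 : ℝ) = ∫ y : E 1, hk t y * 0 := by simp
  rw [h2]
  refine tendsto_integral_filter_of_dominated_convergence (fun y : E 1 => hk t y) ?_ ?_
    (Pool.Agent.H29.TF.integrable_hk ht) ?_
  · refine Eventually.of_forall fun z => ?_
    apply Measurable.aestronglyMeasurable
    exact (Pool.Agent.H29.TF.continuous_hk t).measurable.mul (hGm.comp (by fun_prop))
  · refine Eventually.of_forall fun z => Eventually.of_forall fun y => ?_
    rw [Real.norm_eq_abs, abs_mul, abs_of_nonneg (Pool.Agent.H29.TF.hk_nonneg ht.le y),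
      abs_of_nonneg (hG _).1]
    exact mul_le_of_le_one_right (Pool.Agent.H29.TF.hk_nonneg ht.le y) (hG _).2
  · refine Eventually.of_forall fun y => ?_
    exact (hl (y 0)).const_mul _

theorem sub_le_P (hCMP : T_CMP) (hf : Lip f K) {w1 w2 : ℝ → E 1 → ℝ} (h1 : Mild f 0 w1)
    (h2 : Mild f 0 w2) {t : ℝ} (ht : 0 < t) (x : E 1) :
    w1 t x - w2 t x ≤ Real.exp (K * t) * P t (fun y => max (w1 0 y - w2 0 y) 0) x := by
  have key := hCMP 1 f K K 0 0 t w1 w2 hf le_rfl ht h1 h2
    (fun q _ y hy => by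
      have h2 := (le_abs_self _).trans (hf.lip (w1 q y) (w2 q y))
      rwa [abs_of_pos (by linarith)] at h2) x
  simpa using key

theorem w_top (hCMP : T_CMP) (hf : Lip f K) (hg : Antitone g) (hg01 : ∀ z, 0 ≤ g z ∧ g z ≤ 1)
    (hgt : Tendsto g atTop (𝓝 0)) (hw : Mild f 0 w) (hr : Rng 0 w)
    (h0 : w 0 = fun x => g (x 0)) {t : ℝ} (ht : 0 < t) :
    Tendsto (fun z : ℝ => w t (z • e1)) atTop (𝓝 0) := by
  have c0 : Mild f 0 (fun (_ : ℝ) (_ : E 1) => (0 : ℝ)) := mild_const hf.f0 0
  have h1 : ∀ z : ℝ, w t (z • e1) ≤ Real.exp (K * t) * P t (fun y : E 1 => g (y 0)) (z • e1) := by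
    intro z
    have h := sub_le_P hCMP hf hw c0 ht (z • e1)
    have e : (fun y : E 1 => max (w 0 y - 0) 0) = fun y => g (y 0) := by
      ext y
      rw [h0, sub_zero]
      exact max_eq_left (hg01 _).1
    rw [e, sub_zero] at h
    exact h
  have h2 := (tendsto_P0 ht hg.measurable hg01 (l := atTop) (fun c =>
    hgt.comp (tendsto_atTop_add_const_right atTop (-c) tendsto_id))).const_mul (Real.exp (K * t))
  rw [mul_zero] at h2
  exact tendsto_of_tendsto_of_tendsto_of_le_of_le tendsto_const_nhds h2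
    (fun z => (hr t ht.le _).1) h1

theorem w_bot (hCMP : T_CMP) (hf : Lip f K) (hg : Antitone g) (hg01 : ∀ z, 0 ≤ g z ∧ g z ≤ 1)
    (hgb : Tendsto g atBot (𝓝 1)) (hw : Mild f 0 w) (hr : Rng 0 w)
    (h0 : w 0 = fun x => g (x 0)) {t : ℝ} (ht : 0 < t) :
    Tendsto (fun z : ℝ => w t (z • e1)) atBot (𝓝 1) := by
  have c1 : Mild f 0 (fun (_ : ℝ) (_ : E 1) => (1 : ℝ)) := mild_const hf.f1 0
  have h1 : ∀ z : ℝ, 1 - Real.exp (K * t) * P t (fun y : E 1 => 1 - g (y 0)) (z • e1) ≤
      w t (z • e1) := by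
    intro z
    have h := sub_le_P hCMP hf c1 hw ht (z • e1)
    have e : (fun y : E 1 => max (1 - w 0 y) 0) = fun y => 1 - g (y 0) := by
      ext y
      rw [h0]
      exact max_eq_left (by linarith [(hg01 (y 0)).2])
    rw [e] at h
    linarith
  have h2 := (tendsto_P0 ht (G := fun s => 1 - g s) (measurable_const.sub hg.measurable)
    (fun s => ⟨by linarith [(hg01 s).2], by linarith [(hg01 s).1]⟩) (l := atBot) (fun c => by
      have h3 : Tendsto (fun z : ℝ => g (z - c)) atBot (𝓝 1) :=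
        hgb.comp (tendsto_atBot_add_const_right atBot (-c) tendsto_id)
      simpa using h3.const_sub 1)).const_mul (Real.exp (K * t))
  rw [mul_zero] at h2
  have h3 := h2.const_sub 1
  rw [sub_zero] at h3
  exact tendsto_of_tendsto_of_tendsto_of_le_of_le h3 tendsto_const_nhds h1
    (fun z => (hr t ht.le _).2)

theorem mild_congr {w' : ℝ → E 1 → ℝ} (hw : Mild f 0 w) (h : ∀ t, 0 ≤ t → w' t = w t) :
    Mild f 0 w' := by
  refine ⟨?_, ?_, ?_, ?_⟩
  · obtain ⟨M, hM⟩ := hw.bdd
    exact ⟨M, fun t ht x => by rw [h t ht]; exact hM t ht x⟩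
  · rw [h 0 le_rfl]
    exact hw.meas
  · refine hw.cont.congr ?_
    rintro ⟨t, x⟩ ⟨ht, -⟩
    have : 0 < t := ht
    show w' t x = w t x
    rw [h t this.le]
  · intro s t hs hst x
    rw [h t (by linarith), h s hs, hw.duh s t hs hst x]
    congr 1
    apply intervalIntegral.integral_congr
    intro r hr
    rw [uIcc_of_le hst.le] at hr
    show P (t - r) (fun y => f (w r y)) x = P (t - r) (fun y => f (w' r y)) x
    rw [h r (by linarith [hr.1])]

/-- strict monotonicity -/
theorem strict_w (hTR : T_TR) (hCMP : T_CMP) (hSH : T_SH) (hf : Lip f K) (hg : Antitone g)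
    (hg01 : ∀ z, 0 ≤ g z ∧ g z ≤ 1) (hgb : Tendsto g atBot (𝓝 1)) (hgt : Tendsto g atTop (𝓝 0))
    (hw : Mild f 0 w) (hr : Rng 0 w) (h0 : w 0 = fun x => g (x 0)) {t : ℝ} (ht : 0 < t) (z : ℝ) :
    ∃ c > 0, ∀ ρ, 0 < ρ → ρ ≤ 1 → w t ((z + ρ) • e1) ≤ w t (z • e1) - c * ρ := by
  set s : ℝ := t / 2 with hs_def
  have hs : 0 < s := by positivity
  have hst : s < t := by rw [hs_def]; linarith
  set q : ℝ → ℝ := fun y => w s (y • e1) with hq
  have hqanti : Antitone q := by
    intro a b hab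
    have h := anti_w hTR hCMP hf hg hw h0 (r := b - a) (by linarith) hs.le (a • e1)
    rw [← add_smul, sub_add_cancel] at h
    exact h
  have hqc : Continuous q := (Pool.Agent.H35.RD.mild_slice hw hs).comp (by fun_prop)
  obtain ⟨L1, hL1⟩ := ((w_top hCMP hf hg hg01 hgt hw hr h0 hs).eventually
    (gt_mem_nhds (show (0 : ℝ) < 1 / 4 by norm_num))).exists_forall_of_atTop
  obtain ⟨L2, hL2⟩ := ((w_bot hCMP hf hg hg01 hgb hw hr h0 hs).eventually
    (lt_mem_nhds (show (3 / 4 : ℝ) < 1 by norm_num))).exists_forall_of_atBot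
  set L : ℝ := max 1 (max L1 (1 - L2)) with hL
  have hLa : 1 ≤ L := le_max_left _ _
  have hLb : L1 ≤ L := (le_max_left _ _).trans (le_max_right _ _)
  have hLc : 1 - L2 ≤ L := (le_max_right _ _).trans (le_max_right _ _)
  have hqL : q L ≤ 1 / 4 := (hL1 L hLb).le
  have hqL' : 3 / 4 ≤ q (-L + 1) := (hL2 (-L + 1) (by linarith)).le
  set τ : ℝ := t - s with hτ
  have hτ0 : 0 < τ := by rw [hτ]; linarith
  set m : ℝ := hk τ ((|z| + L) • e1) with hm
  have hm0 : 0 < m := Pool.Agent.H29.TF.hk_pos hτ0 _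
  refine ⟨Real.exp (-(K * (t - s))) * (m * (1 / 2)), by positivity, fun ρ hρ hρ1 => ?_⟩
  have h1 := diff_low hTR hCMP hSH hf hg hw h0 hρ.le hs hst (z • e1)
  have e0 : (ρ • e1 + z • e1 : E 1) = (z + ρ) • e1 := by rw [← add_smul, add_comm]
  rw [e0] at h1
  have hDnn : ∀ y : E 1, 0 ≤ w s y - w s (ρ • e1 + y) := fun y => by
    linarith [anti_w hTR hCMP hf hg hw h0 hρ.le hs.le y]
  have hDc : Continuous (fun y : E 1 => w s y - w s (ρ • e1 + y)) :=
    (Pool.Agent.H35.RD.mild_slice hw hs).sub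
      ((Pool.Agent.H35.RD.mild_slice hw hs).comp (by fun_prop))
  have hDeq : ∀ y : E 1, w s y - w s (ρ • e1 + y) = q (me1 y) - q (me1 y + ρ) := by
    intro y
    have e2 : (ρ • e1 + y : E 1) = (y 0 + ρ) • e1 := by
      conv_lhs => rw [eq_smul_e1 y]
      rw [← add_smul, add_comm]
    rw [e2, me1_apply, hq]
    show w s y - _ = w s (y 0 • e1) - _
    rw [← eq_smul_e1 y]
  obtain ⟨M, hM⟩ := hw.bdd
  have hint : Integrable (fun y : E 1 => hk τ (z • e1 - y) * (w s y - w s (ρ • e1 + y))) := by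
    refine Pool.Agent.H29.TF.integrable_hk_mul (C := 1) hτ0 hDc.aestronglyMeasurable
      (fun y => ?_) _
    rw [abs_of_nonneg (hDnn y)]
    linarith [(hr s hs.le y).2, (hr s hs.le (ρ • e1 + y)).1]
  have h2 : m * ∫ y in Icc (-L) L, (q y - q (y + ρ)) ≤
      P (t - s) (fun y => w s y - w s (ρ • e1 + y)) (z • e1) := by
    have a1 : ∫ y in me1 ⁻¹' Icc (-L) L, (q (me1 y) - q (me1 y + ρ)) =
        ∫ y in Icc (-L) L, (q y - q (y + ρ)) :=
      mp1.setIntegral_preimage_emb me1.measurableEmbedding (fun y => q y - q (y + ρ)) _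
    rw [← a1, ← integral_const_mul]
    have hSm : MeasurableSet (me1 ⁻¹' Icc (-L) L) := me1.measurable measurableSet_Icc
    unfold P
    have hle : ∀ y ∈ me1 ⁻¹' Icc (-L) L, m * (q (me1 y) - q (me1 y + ρ)) ≤
        hk τ (z • e1 - y) * (w s y - w s (ρ • e1 + y)) := by
      intro y hy
      rw [← hDeq]
      refine mul_le_mul_of_nonneg_right ?_ (hDnn y)
      rw [hm]
      unfold hk
      refine mul_le_mul_of_nonneg_left ?_ (by positivity)
      apply Real.exp_le_exp.2
      have hn1 : ‖(z • e1 - y : E 1)‖ ≤ |z| + L := by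
        rw [norm_eq_abs0]
        have e3 : (z • e1 - y : E 1) 0 = z - y 0 := by rw [PiLp.sub_apply, smul_e1_apply]
        rw [e3]
        have hy' : y 0 ∈ Icc (-L) L := hy
        calc |z - y 0| ≤ |z| + |y 0| := abs_sub _ _
          _ ≤ |z| + L := by
            have := abs_le.2 hy'
            linarith
      have hn2 : ‖((|z| + L) • e1 : E 1)‖ = |z| + L := by
        rw [norm_smul, norm_e1, mul_one, Real.norm_eq_abs, abs_of_nonneg (by positivity)]
      rw [hn2]
      rw [neg_div, neg_div, neg_le_neg_iff]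
      apply div_le_div_of_nonneg_right _ (by positivity)
      exact pow_le_pow_left₀ (norm_nonneg _) hn1 2
    calc ∫ y in me1 ⁻¹' Icc (-L) L, m * (q (me1 y) - q (me1 y + ρ))
        ≤ ∫ y in me1 ⁻¹' Icc (-L) L, hk τ (z • e1 - y) * (w s y - w s (ρ • e1 + y)) := by
          refine setIntegral_mono_on ?_ hint.integrableOn hSm hle
          have a2 : IntegrableOn (fun y => m * (q y - q (y + ρ))) (Icc (-L) L) :=
            (by fun_prop : Continuous (fun y => m * (q y - q (y + ρ)))).integrableOn_Icc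
          exact (mp1.integrableOn_comp_preimage me1.measurableEmbedding).2 a2
      _ ≤ ∫ y, hk τ (z • e1 - y) * (w s y - w s (ρ • e1 + y)) := by
          refine setIntegral_le_integral hint (Eventually.of_forall fun y => ?_)
          exact mul_nonneg (Pool.Agent.H29.TF.hk_nonneg hτ0.le _) (hDnn y)
  have h3 : ρ * (1 / 2) ≤ ∫ y in Icc (-L) L, (q y - q (y + ρ)) := by
    rw [integral_Icc_eq_integral_Ioc, ← intervalIntegral.integral_of_le (by linarith)]
    have hii : ∀ a b : ℝ, IntervalIntegrable q volume a b := fun a b =>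
      hqc.intervalIntegrable a b
    rw [intervalIntegral.integral_sub (hii _ _)
      ((by fun_prop : Continuous fun y => q (y + ρ)).intervalIntegrable _ _),
      intervalIntegral.integral_comp_add_right (fun y => q y) ρ,
      intervalIntegral.integral_interval_sub_interval_comm (hii _ _) (hii _ _) (hii _ _)]
    have a3 : ρ * (3 / 4) ≤ ∫ y in (-L)..(-L + ρ), q y := by
      have : ∫ y in (-L)..(-L + ρ), (3 / 4 : ℝ) ≤ ∫ y in (-L)..(-L + ρ), q y := by
        apply intervalIntegral.integral_mono_on (by linarith) (by simp) (hii _ _)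
        intro y hy
        exact hqL'.trans (hqanti (by linarith [hy.2]))
      rw [intervalIntegral.integral_const] at this
      simpa using this
    have a4 : ∫ y in (L)..(L + ρ), q y ≤ ρ * (1 / 4) := by
      have : ∫ y in (L)..(L + ρ), q y ≤ ∫ y in (L)..(L + ρ), (1 / 4 : ℝ) := by
        apply intervalIntegral.integral_mono_on (by linarith) (hii _ _) (by simp)
        intro y hy
        exact (hqanti hy.1).trans hqL
      rw [intervalIntegral.integral_const] at this
      simpa using this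
    linarith
  have h4 : Real.exp (-(K * (t - s))) * (m * (1 / 2)) * ρ ≤
      w t (z • e1) - w t ((z + ρ) • e1) := by
    refine le_trans ?_ h1
    rw [mul_assoc]
    refine mul_le_mul_of_nonneg_left ?_ (Real.exp_pos _).le
    refine le_trans ?_ h2
    nlinarith [hm0]
  linarith

end mono

theorem sol1 (hEXS : T_EXS) (hMRG : T_MRG) (hTR : T_TR) (hCMP : T_CMP) (hSH : T_SH) :
    T_SOL1 := by
  intro f g K hfR hf hg hg01 hgb hgt
  obtain ⟨w, hw, hr, h0⟩ := hEXS 1 f K (fun x => g (x 0)) hf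
    (hg.measurable.comp (by fun_prop)) (fun x => hg01 _)
  obtain ⟨m1, m2, m3, m4, m5, -, -⟩ := hMRG 1 f K w hfR hf hw hr
  refine ⟨fun t z => w t (z • e1), ?_, ?_, ?_, ?_, ?_, ?_, ?_, ?_, ?_⟩
  · intro t ht
    exact (m1 t ht).comp (by fun_prop)
  · intro t ht z
    have h1 := m2 t ht (z • e1)
    have h2 : deriv (deriv (fun z : ℝ => w t (z • e1))) z =
        Laplacian.laplacian (w t) (z • e1) := by
      rw [deriv2_line (m1 t ht), laplacian_line]
    rw [h2]
    exact h1
  · have : ContinuousOn ((fun p : ℝ × E 1 => w p.1 p.2) ∘ fun p : ℝ × ℝ => (p.1, p.2 • e1))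
        (Ioi 0 ×ˢ univ) := by
      refine hw.cont.comp (by fun_prop) ?_
      rintro ⟨t, z⟩ ⟨ht, -⟩
      exact ⟨ht, mem_univ _⟩
    exact this
  · have h1 : ContinuousOn ((fun p : ℝ × E 1 => fderiv ℝ (w p.1) p.2) ∘
        fun p : ℝ × ℝ => (p.1, p.2 • e1)) (Ioi 0 ×ˢ univ) := by
      refine m3.comp (by fun_prop) ?_
      rintro ⟨t, z⟩ ⟨ht, -⟩
      exact ⟨ht, mem_univ _⟩
    have h2 : ContinuousOn (fun p : ℝ × ℝ => fderiv ℝ (w p.1) (p.2 • e1) e1) (Ioi 0 ×ˢ univ) :=
      h1.clm_apply continuousOn_const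
    refine h2.congr ?_
    rintro ⟨t, z⟩ ⟨ht, -⟩
    exact congrFun (deriv_line (m1 t ht)) z
  · have h1 : ContinuousOn ((fun p : ℝ × E 1 => iteratedFDeriv ℝ 2 (w p.1) p.2) ∘
        fun p : ℝ × ℝ => (p.1, p.2 • e1)) (Ioi 0 ×ˢ univ) := by
      refine m4.comp (by fun_prop) ?_
      rintro ⟨t, z⟩ ⟨ht, -⟩
      exact ⟨ht, mem_univ _⟩
    have h2 : ContinuousOn (fun p : ℝ × ℝ => iteratedFDeriv ℝ 2 (w p.1) (p.2 • e1) ![e1, e1])
        (Ioi 0 ×ˢ univ) :=
      (ContinuousMultilinearMap.apply ℝ (fun _ : Fin 2 => E 1) ℝ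
        ![e1, e1]).continuous.comp_continuousOn h1
    refine h2.congr ?_
    rintro ⟨t, z⟩ ⟨ht, -⟩
    exact congrFun (deriv2_line (m1 t ht)) z
  · intro t ht z
    obtain ⟨c, hc, h1⟩ := strict_w hTR hCMP hSH hf hg hg01 hgb hgt hw hr h0 ht z
    have h2 := hasDerivAt_line (m1 t ht) z
    have h3 := h2.tendsto_slope_zero_right
    have h4 : fderiv ℝ (w t) (z • e1) e1 ≤ -c := by
      refine le_of_tendsto h3 ?_
      have h5 : Ioc (0 : ℝ) 1 ∈ 𝓝[>] (0 : ℝ) := Ioc_mem_nhdsGT one_pos
      filter_upwards [h5] with ρ hρ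
      have h6 := h1 ρ hρ.1 hρ.2
      have h7 := hρ.1
      rw [smul_eq_mul, inv_mul_le_iff₀ h7]
      linarith
    rw [deriv_line (m1 t ht)]
    show fderiv ℝ (w t) (z • e1) e1 < 0
    linarith
  · intro t ht
    exact w_bot hCMP hf hg hg01 hgb hw hr h0 ht
  · intro t ht
    exact w_top hCMP hf hg hg01 hgt hw hr h0 ht
  · refine mild_congr hw fun t ht => ?_
    ext x
    rcases ht.eq_or_lt with h | h
    · rw [← h, h0]
      simp
    · rw [if_neg (not_le.2 h)]
      rw [← eq_smul_e1 x]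

end Pool.Agent.H30.RF
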