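import Pool.Agent.H91.RF.TargetsR
import Pool.Agent.H35.RD.Base

/-!
# STAT: the wake over a degenerate platform
-/

open MeasureTheory Set Filter Topology Metric
open Pool.Agent.H29.TF (hk P)
open Pool.Agent.H91.RD
open Pool.Agent.H91.RF

namespace Pool.Agent.H30.RF

variable {N : ℕ}

/-- linear combinations of solutions of the linear equation -/
theorem linD_lin {K a b : ℝ} {V z1 z2 : ℝ → E N → ℝ} (hV : Pt K V)
    (hVc : ContinuousOn (fun q : ℝ × E N => V q.1 q.2) (Icc a b ×ˢ univ))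
    (h1 : LinD V a b z1) (h2 : LinD V a b z2) (hc1 : ∀ s ∈ Icc a b, Continuous (z1 s))
    (hc2 : ∀ s ∈ Icc a b, Continuous (z2 s)) (c : ℝ) :
    LinD V a b (fun t x => z1 t x + c * z2 t x) := by
  obtain ⟨M1, hM1⟩ := h1.bdd
  obtain ⟨M2, hM2⟩ := h2.bdd
  refine ⟨⟨M1 + |c| * M2, fun t ht x => ?_⟩, h1.meas.add (h2.meas.const_mul c),
    h1.cont.add (h2.cont.const_mul c), ?_⟩
  · calc |z1 t x + c * z2 t x| ≤ |z1 t x| + |c * z2 t x| := abs_add_le _ _
      _ ≤ M1 + |c| * M2 := by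
        rw [abs_mul]
        exact add_le_add (hM1 t ht x) (mul_le_mul_of_nonneg_left (hM2 t ht x) (abs_nonneg c))
  · intro s t has hst htb x
    have hK := hV.K0
    have hs : s ∈ Icc a b := ⟨has, by linarith⟩
    have hii : ∀ (z : ℝ → E N → ℝ) (M : ℝ), LinD V a b z → (∀ t ∈ Icc a b, ∀ x, |z t x| ≤ M) →
        IntervalIntegrable (fun r => P (t - r) (fun y => V r y * z r y) x) volume s t := by
      intro z M hz hM
      refine Pool.Agent.H35.RD.ii_duh (h := fun r y => V r y * z r y) (M := K * M) hst.le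
        (fun r hr x => ?_) ?_ x
      · rw [abs_mul]
        exact mul_le_mul (hV.bdd r x) (hM r ⟨by linarith [hr.1], by linarith [hr.2]⟩ x)
          (abs_nonneg _) hK.le
      · refine (hVc.mono (prod_mono (fun r hr => ?_) (subset_refl _))).mul
          (hz.cont.mono (prod_mono (fun r hr => ?_) (subset_refl _)))
        · exact ⟨by linarith [hr.1], by linarith [hr.2]⟩
        · exact ⟨by linarith [hr.1], by linarith [hr.2]⟩
    have e1 := h1.duh s t has hst htb x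
    have e2 := h2.duh s t has hst htb x
    show z1 t x + c * z2 t x = P (t - s) (fun y => z1 s y + c * z2 s y) x +
      ∫ r in s..t, P (t - r) (fun y => V r y * (z1 r y + c * z2 r y)) x
    have i1 : Integrable (fun y => hk (t - s) (x - y) * z1 s y) :=
      Pool.Agent.H29.TF.integrable_hk_mul (by linarith) (hc1 s hs).aestronglyMeasurable
        (hM1 s hs) x
    have i2 : Integrable (fun y => hk (t - s) (x - y) * (c * z2 s y)) := by
      refine Pool.Agent.H29.TF.integrable_hk_mul (C := |c| * M2) (by linarith)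
        ((hc2 s hs).const_mul c |>.aestronglyMeasurable) (fun y => ?_) x
      rw [abs_mul]
      exact mul_le_mul_of_nonneg_left (hM2 s hs y) (abs_nonneg c)
    rw [Pool.Agent.H29.TF.P_add x i1 i2, Pool.Agent.H29.TF.P_const_mul, e1, e2]
    have e3 : ∫ r in s..t, P (t - r) (fun y => V r y * (z1 r y + c * z2 r y)) x =
        (∫ r in s..t, P (t - r) (fun y => V r y * z1 r y) x) +
          c * ∫ r in s..t, P (t - r) (fun y => V r y * z2 r y) x := by
      rw [← intervalIntegral.integral_const_mul,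
        ← intervalIntegral.integral_add (hii z1 M1 h1 hM1) ((hii z2 M2 h2 hM2).const_mul c)]
      apply intervalIntegral.integral_congr_ae
      have hne : ∀ᵐ q : ℝ, q ≠ t := by
        rw [ae_iff]
        have : {a : ℝ | ¬ a ≠ t} = {t} := by ext q; simp
        rw [this]
        exact Real.volume_singleton
      filter_upwards [hne] with q hq hq2
      rw [uIoc_of_le hst.le] at hq2
      have hqt : q < t := lt_of_le_of_ne hq2.2 hq
      have hq3 : q ∈ Icc a b := ⟨by linarith [hq2.1], by linarith⟩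
      have hVq : Continuous (V q) := by
        rw [← continuousOn_univ]
        have : ContinuousOn ((fun p : ℝ × E N => V p.1 p.2) ∘ fun y : E N => (q, y)) univ :=
          hVc.comp (by fun_prop) (fun y _ => ⟨hq3, mem_univ _⟩)
        exact this
      have j1 : Integrable (fun y => hk (t - q) (x - y) * (V q y * z1 q y)) := by
        refine Pool.Agent.H29.TF.integrable_hk_mul (f := fun y => V q y * z1 q y) (C := K * M1)
          (by linarith) (hVq.mul (hc1 q hq3)).aestronglyMeasurable (fun y => ?_) x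
        rw [abs_mul]
        exact mul_le_mul (hV.bdd q y) (hM1 q hq3 y) (abs_nonneg _) hK.le
      have j2 : Integrable (fun y => hk (t - q) (x - y) * (c * (V q y * z2 q y))) := by
        refine Pool.Agent.H29.TF.integrable_hk_mul (f := fun y => c * (V q y * z2 q y))
          (C := |c| * (K * M2)) (by linarith)
          ((hVq.mul (hc2 q hq3)).const_mul c).aestronglyMeasurable (fun y => ?_) x
        rw [abs_mul, abs_mul]
        exact mul_le_mul_of_nonneg_left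
          (mul_le_mul (hV.bdd q y) (hM2 q hq3 y) (abs_nonneg _) hK.le) (abs_nonneg c)
      calc P (t - q) (fun y => V q y * (z1 q y + c * z2 q y)) x
          = P (t - q) (fun y => V q y * z1 q y + c * (V q y * z2 q y)) x := by
            congr 1
            ext y
            ring
        _ = P (t - q) (fun y => V q y * z1 q y) x + c * P (t - q) (fun y => V q y * z2 q y) x := by
            rw [Pool.Agent.H29.TF.P_add x j1 j2, Pool.Agent.H29.TF.P_const_mul]
    rw [e3]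
    ring

theorem perp_le (L : E N →L[ℝ] ℝ) {e h : E N} (he : ‖e‖ = 1) (hh : ‖h‖ = 1)
    (heh : inner ℝ h e = 0) : (L h) ^ 2 + (L e) ^ 2 ≤ ‖L‖ ^ 2 := by
  set A : ℝ := (L h) ^ 2 + (L e) ^ 2 with hA
  have hA0 : 0 ≤ A := by positivity
  set v : E N := (L h) • h + (L e) • e with hv
  have h1 : L v = A := by
    rw [hv, map_add, map_smul, map_smul, hA]
    simp only [smul_eq_mul]
    ring
  have h2 : ‖v‖ ^ 2 = A := by
    rw [hv, ← real_inner_self_eq_norm_sq]
    simp only [inner_add_left, inner_add_right, real_inner_smul_left, real_inner_smul_right]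
    rw [real_inner_self_eq_norm_sq, real_inner_self_eq_norm_sq, he, hh, heh,
      real_inner_comm, heh, hA]
    ring
  have h3 : A ≤ ‖L‖ * ‖v‖ := by
    have := L.le_opNorm v
    rw [h1, Real.norm_eq_abs, abs_of_nonneg hA0] at this
    exact this
  have h4 : A ^ 2 ≤ ‖L‖ ^ 2 * A := by
    calc A ^ 2 ≤ (‖L‖ * ‖v‖) ^ 2 := pow_le_pow_left₀ hA0 h3 2
      _ = ‖L‖ ^ 2 * A := by rw [mul_pow, h2]
  rcases hA0.eq_or_lt with h | h
  · rw [← h]; positivity
  · nlinarith

theorem norm_le_of_perp (L : E N →L[ℝ] ℝ) {e : E N} {M : ℝ} (he : ‖e‖ = 1) (hM : 0 ≤ M)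
    (h : ∀ h : E N, ‖h‖ = 1 → inner ℝ h e = 0 → L h ≤ M) : ‖L‖ ^ 2 ≤ (L e) ^ 2 + M ^ 2 := by
  set g : E N := (InnerProductSpace.toDual ℝ (E N)).symm L with hg
  have hgL : ∀ v, inner ℝ g v = L v := fun v => by
    rw [hg, InnerProductSpace.toDual_symm_apply]
  have hgn : ‖g‖ = ‖L‖ := by rw [hg, LinearIsometryEquiv.norm_map]
  set q : E N := g - (L e) • e with hq
  have hqe : inner ℝ q e = 0 := by
    rw [hq, inner_sub_left, real_inner_smul_left, real_inner_self_eq_norm_sq, he, hgL]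
    ring
  have hgq : ‖g‖ ^ 2 = (L e) ^ 2 + ‖q‖ ^ 2 := by
    have h1 : g = q + (L e) • e := by rw [hq]; abel
    rw [h1, ← real_inner_self_eq_norm_sq]
    simp only [inner_add_left, inner_add_right, real_inner_smul_left, real_inner_smul_right]
    rw [real_inner_self_eq_norm_sq, real_inner_self_eq_norm_sq, he, hqe, real_inner_comm, hqe]
    ring
  have hqM : ‖q‖ ≤ M := by
    rcases eq_or_ne q 0 with h0 | h0
    · rw [h0, norm_zero]; exact hM
    · have hq0 : 0 < ‖q‖ := norm_pos_iff.2 h0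
      have h1 := h (‖q‖⁻¹ • q) (by rw [norm_smul, norm_inv, norm_norm, inv_mul_cancel₀ hq0.ne'])
        (by rw [real_inner_smul_left, hqe, mul_zero])
      have h2 : L (‖q‖⁻¹ • q) = ‖q‖ := by
        rw [map_smul, smul_eq_mul, ← hgL]
        have h3 : inner ℝ g q = ‖q‖ ^ 2 := by
          have h4 : g = q + (L e) • e := by rw [hq]; abel
          have h5 : inner ℝ e q = 0 := by rw [real_inner_comm]; exact hqe
          rw [h4, inner_add_left, real_inner_smul_left, h5, real_inner_self_eq_norm_sq]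
          ring
        rw [h3]
        field_simp
      rwa [h2] at h1
  rw [← hgn, hgq]
  have := pow_le_pow_left₀ (norm_nonneg q) hqM 2
  linarith

/-- the potential is small in the wake -/
theorem pot_small (hFPC : T_FPC) {f : ℝ → ℝ} {K ch cc lo b hi : ℝ} {U : Set (E N)}
    {u : ℝ → E N → ℝ} (hS : Stg f K U u) (hb0 : fp f b = 0) (h1 : Mac U u ch lo b)
    (h2 : Mac U u cc b hi) {ω1 ω η : ℝ} (hω1 : 0 < ω1) (hω : 0 < ω) (hη : 0 < η) :
    ∃ T > 0, ∀ t ≥ T, ∀ y, (cc + ω) * t ≤ infDist y U → infDist y U ≤ (ch - η) * t →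
      |pot f u t y| ≤ ω1 := by
  have hbI : b ∈ Icc (0 : ℝ) 1 := ⟨h2.lo0, h1.hi1⟩
  have hfc := (hFPC f K hS.reac hS.lip).2.1 b hbI
  rw [ContinuousWithinAt, Metric.tendsto_nhdsWithin_nhds] at hfc
  obtain ⟨δ, hδ, hδ1⟩ := hfc ω1 hω1
  set ε : ℝ := min (δ / 2) (min ω η) with hε
  have hε0 : 0 < ε := by rw [hε]; positivity
  obtain ⟨Ta, hTa, ha⟩ := h2.ahead ε hε0
  obtain ⟨Tb, hTb, hb⟩ := h1.behind ε hε0
  refine ⟨max Ta Tb, lt_max_of_lt_left hTa, fun t ht y hy1 hy2 => ?_⟩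
  have ht1 : Ta ≤ t := (le_max_left _ _).trans ht
  have ht2 : Tb ≤ t := (le_max_right _ _).trans ht
  have ht0 : 0 < t := by linarith
  have hεa : ε ≤ δ / 2 := min_le_left _ _
  have hεb : ε ≤ ω := (min_le_right _ _).trans (min_le_left _ _)
  have hεc : ε ≤ η := (min_le_right _ _).trans (min_le_right _ _)
  have k1 := ha t ht1 y (le_trans (by nlinarith) hy1)
  have k2 := hb t ht2 y (le_trans hy2 (by nlinarith))
  unfold pot
  rw [if_pos ht0]
  have k3 := hδ1 (x := u t y) ⟨hS.sol.nonneg ht0 y, hS.sol.le_one ht0 y⟩ (by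
    rw [Real.dist_eq, abs_lt]
    constructor <;> linarith)
  rw [Real.dist_eq, hb0, sub_zero] at k3
  exact k3.le

theorem ndir_mono {U : Set (E N)} {η η' : ℝ} {x e : E N} (h : NDir U η x e) (hη : η ≤ η') :
    NDir U η' x e := by
  obtain ⟨h1, ξ, e0, h2, h3⟩ := h
  exact ⟨h1, ξ, e0, h2, h3.trans hη⟩

/-- application of the cylinder estimate: a function nonnegative at the bottom is almost
nonnegative at the top -/
theorem cyl_low (hCYL : T_CYL) (hN : 1 ≤ N) {K C a b ρ ω1 : ℝ} {V z : ℝ → E N → ℝ} {x0 : E N}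
    (hV : Pt K V) (hVc : ContinuousOn (fun q : ℝ × E N => V q.1 q.2) (Icc a b ×ˢ univ))
    (hz : LinD V a b z) (hzc : ContinuousOn (fun q : ℝ × E N => z q.1 q.2) (Icc a b ×ˢ univ))
    (ha : 0 < a) (hab : a < b) (hρ : 0 < ρ) (hω : ω1 = ρ ^ 2 / (16 * N)) (hC : 0 ≤ C)
    (hb : ∀ t ∈ Icc a b, ∀ x, |z t x| ≤ C)
    (hVs : ∀ t ∈ Icc a b, ∀ x ∈ closedBall x0 (ρ * b), |V t x| ≤ ω1)
    (h0 : ∀ x ∈ closedBall x0 (ρ * b), 0 ≤ z a x) :
    -(2 * N * C * Real.exp (-(3 * ω1 * b))) ≤ z b x0 := by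
  have hN0 : (0 : ℝ) < N := by exact_mod_cast hN
  have hsN : 0 < √(N : ℝ) := Real.sqrt_pos.2 hN0
  have hsq : √(N : ℝ) ^ 2 = N := Real.sq_sqrt hN0.le
  have hω0 : 0 ≤ ω1 := by rw [hω]; positivity
  have h1 := (hCYL N K C a b (ρ * b) ω1 (ρ / (2 * √(N : ℝ))) V z x0 hN hV hVc hz hzc hab
    (by nlinarith) (by positivity) hω0 hC hb (fun t ht x hx => Or.inl (hVs t ht x hx)) h0).1
  refine le_trans ?_ h1
  rw [neg_le_neg_iff]
  refine mul_le_mul_of_nonneg_left (Real.exp_le_exp.2 ?_) (by positivity)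
  have e1 : (ρ / (2 * √(N : ℝ))) ^ 2 = 4 * ω1 := by
    rw [hω, div_pow, mul_pow, hsq]
    field_simp
    ring
  have e2 : ρ / (2 * √(N : ℝ)) * (ρ * b) / √(N : ℝ) = 8 * ω1 * b := by
    have : ρ / (2 * √(N : ℝ)) * (ρ * b) / √(N : ℝ) = ρ ^ 2 * b / (2 * √(N : ℝ) ^ 2) := by
      field_simp
    rw [this, hsq, hω]
    field_simp
    ring
  rw [e1, e2]
  nlinarith

theorem alg_tilt {g p ε3 θ : ℝ} (hp : 0 < p) (h : g ^ 2 ≤ p ^ 2 + (2 * ε3 * p) ^ 2)
    (hε0 : 0 < ε3) (hθ : 0 < θ) (h1 : ε3 ≤ θ / 2) (h2 : ε3 ≤ 1 / 2) : g ≤ (1 + θ) * p := by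
  have c4 : 4 * ε3 ^ 2 ≤ θ := by nlinarith
  have c6 : (1 + 4 * ε3 ^ 2) ≤ (1 + θ) ^ 2 := by nlinarith
  have c3 : g ^ 2 ≤ ((1 + θ) * p) ^ 2 := by
    calc g ^ 2 ≤ (1 + 4 * ε3 ^ 2) * p ^ 2 := by linarith
      _ ≤ (1 + θ) ^ 2 * p ^ 2 := mul_le_mul_of_nonneg_right c6 (sq_nonneg _)
      _ = ((1 + θ) * p) ^ 2 := by ring
  exact abs_le_of_sq_le_sq' c3 (by positivity) |>.2

theorem alg_bot1 {a g p ε3 : ℝ} (hp : 0 < p) (hg : 0 ≤ g) (h1 : a ^ 2 + p ^ 2 ≤ g ^ 2)
    (h2 : g ≤ (1 + ε3 ^ 2 / 3) * p) (hε0 : 0 < ε3) (hε1 : ε3 ≤ 1 / 2) : a ≤ ε3 * p := by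
  have c2 : g ^ 2 ≤ ((1 + ε3 ^ 2 / 3) * p) ^ 2 := pow_le_pow_left₀ hg h2 2
  have c5 : (1 + ε3 ^ 2 / 3) ^ 2 ≤ 1 + ε3 ^ 2 := by
    have h3 : ε3 ^ 2 ≤ 1 / 4 := by nlinarith
    nlinarith [sq_nonneg ε3]
  have c6 := mul_le_mul_of_nonneg_right c5 (sq_nonneg p)
  have c3 : a ^ 2 ≤ (ε3 * p) ^ 2 := by
    have e1 : ((1 + ε3 ^ 2 / 3) * p) ^ 2 = (1 + ε3 ^ 2 / 3) ^ 2 * p ^ 2 := by ring
    have e2 : (1 + ε3 ^ 2) * p ^ 2 = p ^ 2 + (ε3 * p) ^ 2 := by ring
    linarith
  exact abs_le_of_sq_le_sq' c3 (by positivity) |>.2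

theorem alg_bot2 {g p ch ε3 D : ℝ} (hp : 0 < p) (hpg : p ≤ g) (hch : 0 < ch)
    (h : ch * g ^ 2 ≤ (D + ε3 * p) * p) : (ch - ε3) * p ≤ D := by
  have c2 : p ^ 2 ≤ g ^ 2 := pow_le_pow_left₀ hp.le hpg 2
  have c3 : ch * p * p ≤ (D + ε3 * p) * p := by
    have := mul_le_mul_of_nonneg_left c2 hch.le
    have e : ch * p * p = ch * p ^ 2 := by ring
    linarith
  have c4 := le_of_mul_le_mul_right c3 hp
  linarith

theorem alg_t1 {d t ch cc η2 ω : ℝ} (hd1 : (cc + ω) * t ≤ d) (hd2 : d ≤ (cc + ch) / 2 * t)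
    (ht : 0 < t) (hcc : 0 < cc) (hcch : cc < ch) (hω : 0 < ω) (hη : 0 < η2)
    (hη2 : η2 ≤ (ch - cc) / 8) : (ch - η2) * (d / (ch - η2)) = d ∧ 0 < d / (ch - η2) ∧
      d / (ch - η2) < t ∧ cc / ch * t ≤ d / (ch - η2) := by
  have hden : 0 < ch - η2 := by linarith
  have hd0 : 0 < d := lt_of_lt_of_le (by positivity) hd1
  have hch : 0 < ch := by linarith
  refine ⟨by field_simp, by positivity, ?_, ?_⟩
  · rw [div_lt_iff₀ hden]
    nlinarith
  · rw [le_div_iff₀ hden]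
    have e1 : cc / ch * t * (ch - η2) = cc * t - cc / ch * t * η2 := by
      field_simp
    rw [e1]
    have h1 : 0 ≤ cc / ch * t * η2 := by positivity
    have h2 : 0 ≤ ω * t := by positivity
    linarith

theorem alg_rho {ρ t t1 cr η2 : ℝ} (ht : 0 < t) (hη : 0 < η2) (hρb : ρ ≤ η2 * cr / 4)
    (hcrt : cr * t ≤ t1) : ρ * t ≤ η2 / 4 * t1 := by
  calc ρ * t ≤ η2 * cr / 4 * t := mul_le_mul_of_nonneg_right hρb ht.le
    _ = η2 / 4 * (cr * t) := by ring
    _ ≤ η2 / 4 * t1 := mul_le_mul_of_nonneg_left hcrt (by positivity)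

theorem alg_ball {d D r t t1 τ ρ ω η2 cc ch : ℝ} (ht : 0 < t) (hτ1 : t1 ≤ τ) (hτ2 : τ ≤ t)
    (hcc : 0 < cc) (hω : 0 < ω) (hη : 0 < η2) (hch : η2 ≤ ch) (hd1 : (cc + ω) * t ≤ d)
    (hd : (ch - η2) * t1 = d) (hr : r ≤ ρ * t) (hρ : ρ ≤ ω / 4) (h5 : ρ * t ≤ η2 / 4 * t1)
    (h1 : d ≤ D + r) (h2 : D ≤ d + r) :
    (cc + ω / 2) * τ ≤ D ∧ D ≤ (ch - η2 / 2) * τ := by
  have a4 : ρ * t ≤ ω / 4 * t := mul_le_mul_of_nonneg_right hρ ht.le
  have k1 : (cc + ω / 2) * τ ≤ (cc + ω / 2) * t := mul_le_mul_of_nonneg_left hτ2 (by positivity)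
  have k2 : (ch - η2 / 2) * t1 ≤ (ch - η2 / 2) * τ :=
    mul_le_mul_of_nonneg_left hτ1 (by linarith)
  have k3 : 0 ≤ ω * t := by positivity
  constructor
  · linarith
  · nlinarith

theorem alg_rat {d D r t t1 ρ η2 ηε ch : ℝ} (ht1 : 0 < t1) (hη : 0 < η2) (hηε : 2 * η2 ≤ ηε)
    (hd : (ch - η2) * t1 = d) (hr : r ≤ ρ * t) (h5 : ρ * t ≤ η2 / 4 * t1)
    (h1 : d ≤ D + r) (h2 : D ≤ d + r) : |D - ch * t1| ≤ ηε * t1 := by
  have k1 : 2 * η2 * t1 ≤ ηε * t1 := mul_le_mul_of_nonneg_right hηε ht1.le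
  have k2 : 0 < η2 * t1 := by positivity
  rw [abs_le]
  constructor <;> linarith

theorem stat (hFPC : T_FPC) (hLINU : T_LINU) (hGEOK : T_GEOK) (hCYL : T_CYL) (hSTP : T_STP) :
    T_STAT := by
  intro N f K ch cc lo b hi C0 C9 η0 U u hS hcc hfb hfpb hM1 hM2 hF hKIn hRZ
  have hN := hS.N1
  have hN0 : (0 : ℝ) < N := by exact_mod_cast hN
  have hcc0 : 0 < cc := hM2.cpos
  have hch0 : 0 < ch := hM1.cpos
  obtain ⟨hPt, hVc, hLD, Cu, hCu⟩ := hLINU N f K U u hS.reac hS.lip hS.sol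
  have hCu0 : 0 ≤ Cu := (norm_nonneg _).trans (hCu 1 le_rfl 0).1
  refine ⟨(ch - cc) / 4, by linarith, (ch - cc) / 2, by linarith, fun θ hθ ω hω => ?_⟩
  -- the constants
  set ε3 : ℝ := min (min (θ / 2) (1 / 2)) ((ch - cc) / 8) with hε3
  have hε30 : 0 < ε3 := by
    rw [hε3]
    refine lt_min (lt_min (by positivity) (by norm_num)) (by linarith)
  have hε3a : ε3 ≤ θ / 2 := (min_le_left _ _).trans (min_le_left _ _)
  have hε3b : ε3 ≤ 1 / 2 := (min_le_left _ _).trans (min_le_right _ _)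
  have hε3c : ε3 ≤ (ch - cc) / 8 := min_le_right _ _
  obtain ⟨ηR, hηR, TR, hTR, hR⟩ := hRZ (ε3 ^ 2 / 3) (by positivity)
  obtain ⟨ηK, hηK, TK, hTK, hKI⟩ := hKIn ε3 hε30
  obtain ⟨T0, hT0, hpos⟩ := hF.pos
  set ηε : ℝ := min (min ηR ηK) η0 with hηε
  have hηε0 : 0 < ηε := lt_min (lt_min hηR hηK) hF.hη0
  have hηεR : ηε ≤ ηR := (min_le_left _ _).trans (min_le_left _ _)
  have hηεK : ηε ≤ ηK := (min_le_left _ _).trans (min_le_right _ _)
  have hηε00 : ηε ≤ η0 := min_le_right _ _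
  set η2 : ℝ := min ηε ((ch - cc) / 4) / 2 with hη2
  have hη20 : 0 < η2 := by
    rw [hη2]
    have : 0 < min ηε ((ch - cc) / 4) := lt_min hηε0 (by linarith)
    positivity
  have hη2a : 2 * η2 ≤ ηε := by
    rw [hη2]
    have := min_le_left ηε ((ch - cc) / 4)
    linarith
  have hη2b : η2 ≤ (ch - cc) / 8 := by
    rw [hη2]
    have := min_le_right ηε ((ch - cc) / 4)
    linarith
  obtain ⟨ρK, hρK, TG, hTG, hG⟩ := hGEOK N U cc hS.condC hS.ne hcc0 ηε hηε0
  set cr : ℝ := cc / ch with hcr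
  have hcr0 : 0 < cr := by positivity
  set ρ : ℝ := min (min (ω / 4) (η2 * cr / 4)) ρK with hρ
  have hρ0 : 0 < ρ := lt_min (lt_min (by positivity) (by positivity)) hρK
  have hρa : ρ ≤ ω / 4 := (min_le_left _ _).trans (min_le_left _ _)
  have hρb : ρ ≤ η2 * cr / 4 := (min_le_left _ _).trans (min_le_right _ _)
  have hρc : ρ ≤ ρK := min_le_right _ _
  set ω1 : ℝ := ρ ^ 2 / (16 * N) with hω1
  have hω10 : 0 < ω1 := by rw [hω1]; positivity
  obtain ⟨T4, hT4, hpot⟩ := pot_small hFPC hS hfpb hM1 hM2 hω10 (half_pos hω) (half_pos hη20)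
  obtain ⟨TS, hTS, hstp⟩ := hSTP N f K ch cc lo b hi C0 C9 η0 U u hS hcc hfb hfpb hM1 hM2 hF ω hω
    ω1 hω10
  set C' : ℝ := (2 + ch) * Cu with hC'
  have hC'0 : 0 ≤ C' := by rw [hC']; positivity
  obtain ⟨T5, hT5⟩ : ∃ T5 : ℝ, ∀ t ≥ T5, 2 * N * C' * Real.exp (-(2 * ω1 * t)) ≤ ε3 := by
    have h1 : Tendsto (fun t : ℝ => 2 * N * C' * Real.exp (-(2 * ω1 * t))) atTop
        (𝓝 (2 * N * C' * 0)) := by
      refine Tendsto.const_mul _ ?_
      refine Real.tendsto_exp_neg_atTop_nhds_zero.comp ?_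
      exact tendsto_id.const_mul_atTop (by positivity)
    rw [mul_zero] at h1
    exact (h1.eventually (gt_mem_nhds hε30)).exists_forall_of_atTop.imp fun a ha t ht =>
      (ha t ht).le
  set T : ℝ := max (max (TR / cr) (max (TK / cr) (T0 / cr))) (max (max TG (T4 / cr))
    (max (max TS (1 / cr)) T5)) with hTdef
  have q1 : TR / cr ≤ T := (le_max_left _ _).trans (le_max_left _ _)
  have q2 : TK / cr ≤ T := (le_max_left _ _).trans ((le_max_right _ _).trans (le_max_left _ _))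
  have q3 : T0 / cr ≤ T := (le_max_right _ _).trans ((le_max_right _ _).trans (le_max_left _ _))
  have q4 : TG ≤ T := (le_max_left _ _).trans ((le_max_left _ _).trans (le_max_right _ _))
  have q5 : T4 / cr ≤ T := (le_max_right _ _).trans ((le_max_left _ _).trans (le_max_right _ _))
  have q6 : TS ≤ T := (le_max_left _ _).trans ((le_max_left _ _).trans
    ((le_max_right _ _).trans (le_max_right _ _)))
  have q7 : 1 / cr ≤ T := (le_max_right _ _).trans ((le_max_left _ _).trans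
    ((le_max_right _ _).trans (le_max_right _ _)))
  have q8 : T5 ≤ T := (le_max_right _ _).trans ((le_max_right _ _).trans (le_max_right _ _))
  have hT0' : 0 < T := lt_of_lt_of_le (by positivity) q7
  refine ⟨T, hT0', fun t ht x ξ e hD hd1 hd2 => ?_⟩
  have ht0 : 0 < t := by linarith
  set d : ℝ := infDist x U with hd
  have hd0 : 0 < d := hD.pos
  have hd2' : d ≤ (cc + ch) / 2 * t := le_trans hd2 (by
    have e : (cc + (ch - cc) / 2) * t = (cc + ch) / 2 * t := by ring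
    exact e.le)
  obtain ⟨ht1d', ht10', ht1t', hcrt'⟩ := alg_t1 hd1 hd2' ht0 hcc0 hcc hω hη20 hη2b
  rw [← hcr] at hcrt'
  obtain ⟨t1, ht1⟩ : ∃ t1, t1 = d / (ch - η2) := ⟨_, rfl⟩
  rw [← ht1] at ht1d' ht10' ht1t' hcrt'
  have ht1d : (ch - η2) * t1 = d := ht1d'
  have ht10 : 0 < t1 := ht10'
  have ht1t : t1 < t := ht1t'
  have hcrt : cr * t ≤ t1 := hcrt'
  clear ht1d' ht10' ht1t' hcrt'
  have hbig : ∀ τ, t1 ≤ τ → ∀ {S : ℝ}, S / cr ≤ T → S ≤ τ := by
    intro τ hτ S hST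
    rw [div_le_iff₀ hcr0] at hST
    have h1 : T * cr ≤ t * cr := mul_le_mul_of_nonneg_right ht hcr0.le
    linarith
  have hρt : ρ * t ≤ η2 / 4 * t1 := alg_rho ht0 hη20 hρb hcrt
  -- the ball
  have hball : ∀ τ ∈ Icc t1 t, ∀ y ∈ closedBall x (ρ * t),
      (cc + ω / 2) * τ ≤ infDist y U ∧ infDist y U ≤ (ch - η2 / 2) * τ := by
    intro τ hτ y hy
    have hy' : dist y x ≤ ρ * t := mem_closedBall.1 hy
    have a1 : d ≤ infDist y U + dist x y := infDist_le_infDist_add_dist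
    have a2 : infDist y U ≤ d + dist y x := infDist_le_infDist_add_dist
    rw [dist_comm x y] at a1
    exact alg_ball ht0 hτ.1 hτ.2 hcc0 hω hη20 (by linarith) hd1 ht1d hy' hρa hρt a1 a2
  have hVs : ∀ τ ∈ Icc t1 t, ∀ y ∈ closedBall x (ρ * t), |pot f u τ y| ≤ ω1 := by
    intro τ hτ y hy
    exact hpot τ (hbig τ hτ.1 q5) y (hball τ hτ y hy).1 (hball τ hτ y hy).2
  have hND : ∀ y ∈ closedBall x (ρ * t), NDir U ηε y e := by
    intro y hy
    refine hG t (by linarith) x e ⟨hD.unit, ξ, e, hD, by simp; exact hρK.le⟩ (le_trans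
      (mul_le_mul_of_nonneg_right (by linarith) ht0.le) hd1) y ?_
    exact (mem_closedBall.1 hy).trans (mul_le_mul_of_nonneg_right hρc ht0.le)
  have hrat : ∀ y ∈ closedBall x (ρ * t), |infDist y U - ch * t1| ≤ ηε * t1 := by
    intro y hy
    have hy' : dist y x ≤ ρ * t := mem_closedBall.1 hy
    have a1 : d ≤ infDist y U + dist x y := infDist_le_infDist_add_dist
    have a2 : infDist y U ≤ d + dist y x := infDist_le_infDist_add_dist
    rw [dist_comm x y] at a1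
    exact alg_rat ht10 hη20 hη2a ht1d hy' hρt a1 a2
  -- the situation at the time t1
  have hbot : ∀ y ∈ closedBall x (ρ * t), 0 < -dx u e t1 y ∧
      (∀ h : E N, ‖h‖ = 1 → inner ℝ h e = 0 → dx u h t1 y ≤ ε3 * -dx u e t1 y) ∧
      (ch - ε3) * -dx u e t1 y ≤ dt u t1 y := by
    intro y hy
    have b1 := (hpos t1 (hbig t1 le_rfl q3) y e (ndir_mono (hND y hy) hηε00)
      ((hrat y hy).trans (mul_le_mul_of_nonneg_right hηε00 ht10.le))).1
    have b2 : gr u t1 y ≤ (1 + ε3 ^ 2 / 3) * -dx u e t1 y :=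
      hR t1 (hbig t1 le_rfl q1) y e (ndir_mono (hND y hy) hηεR)
        ((hrat y hy).trans (mul_le_mul_of_nonneg_right hηεR ht10.le))
    have b3 : ch * gr u t1 y ^ 2 ≤ (dt u t1 y + ε3 * -dx u e t1 y) * -dx u e t1 y :=
      hKI t1 (hbig t1 le_rfl q2) y e (ndir_mono (hND y hy) hηεK)
        ((hrat y hy).trans (mul_le_mul_of_nonneg_right hηεK ht10.le))
    set p : ℝ := -dx u e t1 y with hp
    have hgr : gr u t1 y = ‖fderiv ℝ (u t1) y‖ := rfl
    have hpe : (fderiv ℝ (u t1) y) e = -p := by rw [hp]; unfold dx; ring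
    refine ⟨b1, fun h hh hhe => ?_, ?_⟩
    · have c1 := perp_le (fderiv ℝ (u t1) y) hD.unit hh hhe
      rw [← hgr, hpe, neg_sq] at c1
      exact alg_bot1 b1 (norm_nonneg _) c1 b2 hε30 hε3b
    · have c1 : p ≤ gr u t1 y := by
        have := (fderiv ℝ (u t1) y).le_opNorm e
        rw [hpe, hD.unit, mul_one, Real.norm_eq_abs, abs_neg, abs_of_pos b1] at this
        exact this
      exact alg_bot2 b1 c1 hch0 b3
  -- continuity and bounds on the slab
  have ht11 : 1 ≤ t1 := hbig t1 le_rfl q7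
  have hsubI : Icc t1 t ×ˢ (univ : Set (E N)) ⊆ Ioi 0 ×ˢ univ :=
    prod_mono (fun r hr => by
      have := hr.1
      show 0 < r
      linarith) (subset_refl _)
  have hVc' := hVc.mono hsubI
  have hdxc : ∀ v, ContinuousOn (fun q : ℝ × E N => dx u v q.1 q.2) (Icc t1 t ×ˢ univ) :=
    fun v => (hS.sol.sol.cont_dx.mono hsubI).clm_apply continuousOn_const
  have hdtc : ContinuousOn (fun q : ℝ × E N => dt u q.1 q.2) (Icc t1 t ×ˢ univ) :=
    hS.sol.sol.cont_dt.mono hsubI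
  have hslice : ∀ {F : ℝ → E N → ℝ}, ContinuousOn (fun q : ℝ × E N => F q.1 q.2)
      (Icc t1 t ×ˢ univ) → ∀ s ∈ Icc t1 t, Continuous (F s) := by
    intro F hFc s hs
    rw [← continuousOn_univ]
    have : ContinuousOn ((fun p : ℝ × E N => F p.1 p.2) ∘ fun y : E N => (s, y)) univ :=
      hFc.comp (by fun_prop) (fun y _ => ⟨hs, mem_univ _⟩)
    exact this
  have hbd : ∀ v : E N, ∀ τ ∈ Icc t1 t, ∀ y, |dx u v τ y| ≤ Cu * ‖v‖ := by
    intro v τ hτ y
    have h1 := (fderiv ℝ (u τ) y).le_opNorm v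
    rw [Real.norm_eq_abs] at h1
    exact h1.trans (mul_le_mul_of_nonneg_right (hCu τ (by linarith [hτ.1]) y).1 (norm_nonneg v))
  have hxb : x ∈ closedBall x (ρ * t) := mem_closedBall_self (by positivity)
  have hexp : 2 * N * C' * Real.exp (-(3 * ω1 * t)) ≤ ε3 * -dx u e t x := by
    have s1 := hstp t (by linarith) x ξ e hD hd1 hd2'
    have s2 := hT5 t (by linarith)
    calc 2 * N * C' * Real.exp (-(3 * ω1 * t))
        = (2 * N * C' * Real.exp (-(2 * ω1 * t))) * Real.exp (-(ω1 * t)) := by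
          rw [mul_assoc (2 * N * C'), ← Real.exp_add]
          congr 2
          ring
      _ ≤ ε3 * -dx u e t x := mul_le_mul s2 s1 (Real.exp_pos _).le hε30.le
  have hp0 : 0 < -dx u e t x :=
    lt_of_lt_of_le (Real.exp_pos _) (hstp t (by linarith) x ξ e hD hd1 hd2')
  -- first estimate
  have hG1 : ∀ h : E N, ‖h‖ = 1 → inner ℝ h e = 0 → dx u h t x ≤ 2 * ε3 * -dx u e t x := by
    intro h hh hhe
    set v : E N := -(ε3 • e) - h with hv
    have hvn : ‖v‖ ≤ 2 := by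
      calc ‖v‖ ≤ ‖-(ε3 • e)‖ + ‖h‖ := norm_sub_le _ _
        _ ≤ 2 := by
          rw [norm_neg, norm_smul, hD.unit, hh, Real.norm_eq_abs, abs_of_pos hε30]
          linarith
    have hve : ∀ τ y, dx u v τ y = ε3 * -dx u e τ y - dx u h τ y := by
      intro τ y
      unfold dx
      rw [hv, map_sub, map_neg, map_smul, smul_eq_mul]
      ring
    have c1 := cyl_low hCYL hN (C := C') hPt hVc' ((hLD t1 t ht10 ht1t).1 v) (hdxc v) ht10 ht1t
      hρ0 hω1 hC'0 (fun τ hτ y => (hbd v τ hτ y).trans (by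
        rw [hC', mul_comm (2 + ch) Cu]
        exact mul_le_mul_of_nonneg_left (by linarith) hCu0)) (x0 := x) hVs (fun y hy => by
        rw [hve]
        linarith [(hbot y hy).2.1 h hh hhe])
    rw [hve] at c1
    linarith
  -- second estimate
  have hG2 : (ch - 2 * ε3) * -dx u e t x ≤ dt u t x := by
    have c1 := cyl_low hCYL hN (C := C') (z := fun τ y => dt u τ y + (ch - ε3) * dx u e τ y)
      hPt hVc' (linD_lin hPt hVc' (hLD t1 t ht10 ht1t).2 ((hLD t1 t ht10 ht1t).1 e)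
        (hslice hdtc) (hslice (hdxc e)) (ch - ε3)) (hdtc.add ((hdxc e).const_mul _)) ht10 ht1t
      hρ0 hω1 hC'0 (fun τ hτ y => by
        have k1 := (hCu τ (by linarith [hτ.1]) y).2.1
        have k2 := hbd e τ hτ y
        rw [hD.unit, mul_one] at k2
        calc |dt u τ y + (ch - ε3) * dx u e τ y| ≤ |dt u τ y| + |(ch - ε3) * dx u e τ y| :=
              abs_add_le _ _
          _ ≤ Cu + ch * Cu := by
              rw [abs_mul, abs_of_pos (by linarith : 0 < ch - ε3)]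
              refine add_le_add k1 (mul_le_mul (by linarith) k2 (abs_nonneg _) hch0.le)
          _ ≤ C' := by rw [hC']; linarith) (x0 := x) hVs (fun y hy => by
        have := (hbot y hy).2.2
        show 0 ≤ dt u t1 y + (ch - ε3) * dx u e t1 y
        linarith)
    have c2 : -(2 * N * C' * Real.exp (-(3 * ω1 * t))) ≤ dt u t x + (ch - ε3) * dx u e t x := c1
    linarith
  refine ⟨hp0, ?_, ?_⟩
  · have c1 := norm_le_of_perp (fderiv ℝ (u t) x) hD.unit (M := 2 * ε3 * -dx u e t x)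
      (by positivity) hG1
    have c2 : (fderiv ℝ (u t) x) e = dx u e t x := rfl
    rw [c2] at c1
    exact alg_tilt hp0 (by rw [neg_sq]; exact c1) hε30 hθ hε3a hε3b
  · refine le_trans ?_ hG2
    apply mul_le_mul_of_nonneg_right _ hp0.le
    linarith

end Pool.Agent.H30.RF
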