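import Pool.Agent.H91.RF.TargetsR
import Pool.Agent.H35.RD.Base
import Pool.Agent.H90.RD.Line

/-!
# STL: comparison of slopes with the solution with logistic datum
-/

open MeasureTheory Set Filter Topology Metric
open Pool.Agent.H29.TF (hk P)
open Pool.Agent.H91.RD
open Pool.Agent.H91.RF

namespace Pool.Agent.H30.RF.STL

variable {N : ℕ}

/-! ### Lower bounds -/

theorem duh_low (hSH : T_SH) {K M δ t : ℝ} {z h : ℝ → E N → ℝ} (ht : 0 < t)
    (hm : Measurable (z 0)) (hb : ∀ r ∈ Icc 0 t, ∀ x, |z r x| ≤ M)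
    (hbh : ∀ r ∈ Icc 0 t, ∀ x, |h r x| ≤ M)
    (hc : ContinuousOn (fun p : ℝ × E N => z p.1 p.2) (Ioc 0 t ×ˢ univ))
    (hch : ContinuousOn (fun p : ℝ × E N => h p.1 p.2) (Ioc 0 t ×ˢ univ))
    (hduh : ∀ r ∈ Ioc 0 t, ∀ x, z r x = P (r - 0) (z 0) x + ∫ q in (0 : ℝ)..r, P (r - q) (h q) x)
    (hlow : ∀ q ∈ Icc 0 t, ∀ y, 0 ≤ h q y + K * z q y) (hδ : ∀ y, δ ≤ z 0 y) (x : E N) :
    δ * Real.exp (-(K * t)) ≤ z t x := by
  have key := hSH N K M 0 t z h ht hm hb hbh hc hch hduh t ⟨ht, le_rfl⟩ x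
  have h1 : δ ≤ P (t - 0) (z 0) x := by
    have h2 : P (t - 0) (fun _ : E N => δ) x ≤ P (t - 0) (z 0) x := by
      apply Pool.Agent.H29.TF.P_mono (by linarith) x
      · exact Pool.Agent.H29.TF.integrable_hk_mul (C := |δ|) (by linarith)
          aestronglyMeasurable_const (fun _ => le_rfl) x
      · exact Pool.Agent.H29.TF.integrable_hk_mul (by linarith) hm.aestronglyMeasurable
          (hb 0 ⟨le_rfl, ht.le⟩) x
      · exact hδ
    rwa [Pool.Agent.H29.TF.P_const (by linarith)] at h2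
  have h2 : 0 ≤ ∫ q in (0 : ℝ)..t, Real.exp (-(K * (t - q))) *
      P (t - q) (fun y => h q y + K * z q y) x := by
    apply intervalIntegral.integral_nonneg ht.le
    intro q hq
    exact mul_nonneg (Real.exp_pos _).le
      (Pool.Agent.H29.TF.P_nonneg (by linarith [hq.2]) (hlow q hq) x)
  have h3 : Real.exp (-(K * (t - 0))) = Real.exp (-(K * t)) := by rw [sub_zero]
  rw [h3] at key
  have h4 : δ * Real.exp (-(K * t)) ≤ Real.exp (-(K * t)) * P (t - 0) (z 0) x := by
    rw [mul_comm]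
    exact mul_le_mul_of_nonneg_left h1 (Real.exp_pos _).le
  linarith

theorem v_low (hSH : T_SH) {f : ℝ → ℝ} {K δ : ℝ} {v : ℝ → E N → ℝ} (hf : Lip f K)
    (hv : Mild f 0 v) (hr : Rng 0 v) (hδ : ∀ y, δ ≤ v 0 y) {t : ℝ} (ht : 0 < t) (x : E N) :
    δ * Real.exp (-(K * t)) ≤ v t x := by
  have hK := hf.K0
  have hsub : Ioc 0 t ×ˢ (univ : Set (E N)) ⊆ Ioi 0 ×ˢ univ :=
    prod_mono (fun r hr => hr.1) (subset_refl _)
  have hfb : ∀ q, 0 ≤ q → ∀ y, |f (v q y)| ≤ K * v q y := fun q hq y => by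
    have := hf.abs_le (v q y)
    rwa [abs_of_nonneg (hr q hq y).1] at this
  refine duh_low hSH (M := 1 + K) (h := fun q y => f (v q y)) ht hv.meas (fun r hr' x => ?_)
    (fun r hr' x => ?_) (hv.cont.mono hsub)
    ((Pool.Agent.H35.RD.mild_comp_cont hf hv).mono hsub)
    (fun r hr' x => hv.duh 0 r le_rfl hr'.1 x) (fun q hq y => ?_) hδ x
  · rw [abs_of_nonneg (hr r hr'.1 x).1]
    linarith [(hr r hr'.1 x).2]
  · have h1 := hfb r hr'.1 x
    have h2 := (hr r hr'.1 x).2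
    nlinarith
  · have h1 := hfb q hq.1 y
    linarith [neg_abs_le (f (v q y))]

theorem v_up (hSH : T_SH) {f : ℝ → ℝ} {K δ : ℝ} {v : ℝ → E N → ℝ} (hf : Lip f K)
    (hv : Mild f 0 v) (hr : Rng 0 v) (hδ : ∀ y, v 0 y ≤ 1 - δ) {t : ℝ} (ht : 0 < t) (x : E N) :
    v t x ≤ 1 - δ * Real.exp (-(K * t)) := by
  have hK := hf.K0
  have hsub : Ioc 0 t ×ˢ (univ : Set (E N)) ⊆ Ioi 0 ×ˢ univ :=
    prod_mono (fun r hr => hr.1) (subset_refl _)
  have hfb : ∀ q, 0 ≤ q → ∀ y, |f (v q y)| ≤ K * (1 - v q y) := fun q hq y => by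
    have := hf.lip (v q y) 1
    rwa [hf.f1, sub_zero, abs_of_nonpos (by linarith [(hr q hq y).2] : v q y - 1 ≤ 0),
      neg_sub] at this
  have key : δ * Real.exp (-(K * t)) ≤ 1 - v t x := by
    refine duh_low hSH (M := 1 + K) (z := fun q y => 1 - v q y) (h := fun q y => -f (v q y)) ht
      (measurable_const.sub hv.meas) (fun r hr' x => ?_)
      (fun r hr' x => ?_) (continuousOn_const.sub (hv.cont.mono hsub))
      ((Pool.Agent.H35.RD.mild_comp_cont hf hv).mono hsub).neg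
      (fun r hr' x => ?_) (fun q hq y => ?_) (fun y => by linarith [hδ y]) x
    · rw [abs_of_nonneg (by linarith [(hr r hr'.1 x).2])]
      linarith [(hr r hr'.1 x).1]
    · rw [abs_neg]
      have h1 := hfb r hr'.1 x
      have h2 := (hr r hr'.1 x).1
      nlinarith
    · have d := hv.duh 0 r le_rfl hr'.1 x
      have hr0 : 0 < r := hr'.1
      obtain ⟨M, hM⟩ := hv.bdd
      have e1 : P (r - 0) (fun y => 1 - v 0 y) x = 1 - P (r - 0) (v 0) x := by
        have := Pool.Agent.H29.TF.P_sub (t := r - 0) (f := fun _ : E N => (1 : ℝ)) (g := v 0) x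
          (Pool.Agent.H29.TF.integrable_hk_mul (C := 1) (by linarith)
            aestronglyMeasurable_const (fun _ => by simp) x)
          (Pool.Agent.H29.TF.integrable_hk_mul (by linarith) hv.meas.aestronglyMeasurable
            (hM 0 le_rfl) x)
        rw [this, Pool.Agent.H29.TF.P_const (by linarith)]
      have e2 : ∀ q, P (r - q) (fun y => -f (v q y)) x = -P (r - q) (fun y => f (v q y)) x := by
        intro q
        have := Pool.Agent.H29.TF.P_const_mul (r - q) (-1) (fun y => f (v q y)) x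
        simpa using this
      show 1 - v r x = P (r - 0) (fun y => 1 - v 0 y) x +
        ∫ q in (0 : ℝ)..r, P (r - q) (fun y => -f (v q y)) x
      simp_rw [e2]
      rw [intervalIntegral.integral_neg, e1, d]
      ring
    · have h1 := hfb q hq.1 y
      linarith [le_abs_self (f (v q y))]
  linarith

/-! ### The one-dimensional solution -/

section Qs

variable {f : ℝ → ℝ} {k : ℝ} {Q : ℝ → ℝ → ℝ}

theorem Q_cont (hL : Lgs f k Q) {t : ℝ} (ht : 0 ≤ t) : Continuous (Q t) := by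
  rw [← continuousOn_univ]
  have : ContinuousOn ((fun p : ℝ × ℝ => Q p.1 p.2) ∘ fun z : ℝ => (t, z)) univ :=
    hL.cont0.comp (by fun_prop) (fun z _ => ⟨ht, mem_univ _⟩)
  exact this

theorem Q_anti (hL : Lgs f k Q) {t : ℝ} (ht : 0 ≤ t) : StrictAnti (Q t) := by
  rcases ht.eq_or_lt with h | h
  · rw [← h]
    intro a b hab
    rw [hL.zero, hL.zero]
    unfold lgs
    have h1 : Real.exp (k * a) < Real.exp (k * b) :=
      Real.exp_lt_exp.2 (mul_lt_mul_of_pos_left hab hL.k0)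
    exact inv_strictAnti₀ (by positivity) (by linarith)
  · exact strictAnti_of_deriv_neg (hL.sol.neg t h)

theorem Q_top (hL : Lgs f k Q) {t : ℝ} (ht : 0 ≤ t) : Tendsto (Q t) atTop (𝓝 0) := by
  rcases ht.eq_or_lt with h | h
  · rw [← h]
    have h1 : Tendsto (fun z => lgs k z) atTop (𝓝 0) := by
      unfold lgs
      refine tendsto_inv_atTop_zero.comp (tendsto_atTop_add_const_left _ _ ?_)
      exact Real.tendsto_exp_atTop.comp (tendsto_id.const_mul_atTop hL.k0)
    exact h1.congr (fun z => (hL.zero z).symm)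
  · exact hL.sol.top t h

theorem Q_bot (hL : Lgs f k Q) {t : ℝ} (ht : 0 ≤ t) : Tendsto (Q t) atBot (𝓝 1) := by
  rcases ht.eq_or_lt with h | h
  · rw [← h]
    have h1 : Tendsto (fun z => lgs k z) atBot (𝓝 1) := by
      unfold lgs
      have h2 : Tendsto (fun z : ℝ => 1 + Real.exp (k * z)) atBot (𝓝 (1 + 0)) :=
        (Real.tendsto_exp_atBot.comp (tendsto_id.const_mul_atBot hL.k0)).const_add 1
      have h3 := h2.inv₀ (by norm_num)
      simpa using h3
    exact h1.congr (fun z => (hL.zero z).symm)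
  · exact hL.sol.bot t h

theorem Q_ex (hL : Lgs f k Q) {t a : ℝ} (ht : 0 ≤ t) (ha0 : 0 < a) (ha1 : a < 1) :
    ∃ z, Q t z = a := by
  have h1 : ∃ z, Q t z ≤ a :=
    (((Q_top hL ht).eventually (gt_mem_nhds ha0)).exists).imp fun _ h => h.le
  have h2 : ∃ z, a ≤ Q t z :=
    (((Q_bot hL ht).eventually (lt_mem_nhds ha1)).exists).imp fun _ h => h.le
  exact mem_range_of_exists_le_of_exists_ge (Q_cont hL ht) h1 h2

/-- uniform limits on compact time intervals -/
theorem Q_unif_top (hL : Lgs f k Q) {T a : ℝ} (ha : 0 < a) :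
    ∃ n : ℕ, ∀ t ∈ Icc 0 T, Q t n < a := by
  by_contra hcon
  push Not at hcon
  choose tn htn hQ using hcon
  obtain ⟨t, ht, σ, hσ, hlim⟩ := isCompact_Icc.tendsto_subseq htn
  obtain ⟨m, hm⟩ := ((Q_top hL ht.1).eventually (gt_mem_nhds ha)).exists_forall_of_atTop
  obtain ⟨p, hp⟩ := exists_nat_ge m
  have h1 : Q t p < a := hm p hp
  have h2 : Tendsto (fun n => Q (tn (σ n)) p) atTop (𝓝 (Q t p)) := by
    have h3 := hL.cont0 (t, (p : ℝ)) ⟨ht.1, mem_univ _⟩
    have h4 : Tendsto (fun n => (tn (σ n), (p : ℝ))) atTop (𝓝[Ici 0 ×ˢ univ] (t, (p : ℝ))) := by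
      rw [tendsto_nhdsWithin_iff]
      refine ⟨Tendsto.prodMk_nhds hlim tendsto_const_nhds, Eventually.of_forall fun n => ?_⟩
      exact ⟨(htn (σ n)).1, mem_univ _⟩
    exact h3.tendsto.comp h4
  obtain ⟨n, hn1, hn2⟩ := ((h2.eventually (gt_mem_nhds h1)).and
    (eventually_ge_atTop p)).exists
  have h5 : (p : ℝ) ≤ (σ n : ℕ) := by
    exact_mod_cast hn2.trans (hσ.le_apply)
  have h6 := (Q_anti hL (htn (σ n)).1).antitone h5
  linarith [hQ (σ n)]

theorem Q_unif_bot (hL : Lgs f k Q) {T a : ℝ} (ha : 0 < a) :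
    ∃ n : ℕ, ∀ t ∈ Icc 0 T, 1 - a < Q t (-(n : ℝ)) := by
  by_contra hcon
  push Not at hcon
  choose tn htn hQ using hcon
  obtain ⟨t, ht, σ, hσ, hlim⟩ := isCompact_Icc.tendsto_subseq htn
  obtain ⟨m, hm⟩ := ((Q_bot hL ht.1).eventually
    (lt_mem_nhds (show 1 - a < 1 by linarith))).exists_forall_of_atBot
  obtain ⟨p, hp⟩ := exists_nat_ge (-m)
  have h1 : 1 - a < Q t (-(p : ℝ)) := hm _ (by linarith)
  have h2 : Tendsto (fun n => Q (tn (σ n)) (-(p : ℝ))) atTop (𝓝 (Q t (-(p : ℝ)))) := by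
    have h3 := hL.cont0 (t, -(p : ℝ)) ⟨ht.1, mem_univ _⟩
    have h4 : Tendsto (fun n => (tn (σ n), -(p : ℝ))) atTop
        (𝓝[Ici 0 ×ˢ univ] (t, -(p : ℝ))) := by
      rw [tendsto_nhdsWithin_iff]
      refine ⟨Tendsto.prodMk_nhds hlim tendsto_const_nhds, Eventually.of_forall fun n => ?_⟩
      exact ⟨(htn (σ n)).1, mem_univ _⟩
    exact h3.tendsto.comp h4
  obtain ⟨n, hn1, hn2⟩ := ((h2.eventually (lt_mem_nhds h1)).and
    (eventually_ge_atTop p)).exists
  have h5 : (p : ℝ) ≤ (σ n : ℕ) := by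
    exact_mod_cast hn2.trans (hσ.le_apply)
  have h6 := (Q_anti hL (htn (σ n)).1).antitone (neg_le_neg h5)
  linarith [hQ (σ n)]

end Qs

/-! ### The level function -/

theorem Z_cont {Q : ℝ → ℝ → ℝ} {v Z : ℝ → E N → ℝ}
    (hQc : ContinuousOn (fun p : ℝ × ℝ => Q p.1 p.2) (Ici 0 ×ˢ univ))
    (hvc : ContinuousOn (fun p : ℝ × E N => v p.1 p.2) (Ici 0 ×ˢ univ))
    (hanti : ∀ t ≥ 0, StrictAnti (Q t)) (hZ : ∀ t ≥ 0, ∀ x, Q t (Z t x) = v t x) :
    ContinuousOn (fun p : ℝ × E N => Z p.1 p.2) (Ici 0 ×ˢ univ) := by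
  rintro ⟨t0, x0⟩ ⟨ht0, -⟩
  have ht0' : 0 ≤ t0 := ht0
  set S : Set (ℝ × E N) := Ici 0 ×ˢ univ with hS
  have hmem : (t0, x0) ∈ S := ⟨ht0, mem_univ _⟩
  have hv1 : Tendsto (fun p : ℝ × E N => v p.1 p.2) (𝓝[S] (t0, x0)) (𝓝 (v t0 x0)) :=
    hvc (t0, x0) hmem
  have hq1 : ∀ c : ℝ, Tendsto (fun p : ℝ × E N => Q p.1 c) (𝓝[S] (t0, x0)) (𝓝 (Q t0 c)) := by
    intro c
    have h3 := hQc (t0, c) ⟨ht0, mem_univ _⟩
    have h4 : Tendsto (fun p : ℝ × E N => (p.1, c)) (𝓝[S] (t0, x0))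
        (𝓝[Ici 0 ×ˢ univ] (t0, c)) := by
      rw [tendsto_nhdsWithin_iff]
      refine ⟨?_, ?_⟩
      · have : Continuous (fun p : ℝ × E N => (p.1, c)) := by fun_prop
        exact (this.tendsto (t0, x0)).mono_left nhdsWithin_le_nhds
      · filter_upwards [self_mem_nhdsWithin] with p hp
        exact ⟨hp.1, mem_univ _⟩
    exact h3.tendsto.comp h4
  show Tendsto (fun p : ℝ × E N => Z p.1 p.2) (𝓝[S] (t0, x0)) (𝓝 (Z t0 x0))
  rw [Metric.tendsto_nhds]
  intro ε hε
  have a1 : Q t0 (Z t0 x0 + ε) < v t0 x0 := by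
    rw [← hZ t0 ht0' x0]
    exact hanti t0 ht0' (by linarith)
  have a2 : v t0 x0 < Q t0 (Z t0 x0 - ε) := by
    rw [← hZ t0 ht0' x0]
    exact hanti t0 ht0' (by linarith)
  filter_upwards [(hq1 (Z t0 x0 + ε)).eventually_lt hv1 a1,
    hv1.eventually_lt (hq1 (Z t0 x0 - ε)) a2, self_mem_nhdsWithin] with p hp1 hp2 hp3
  have hp0 : 0 ≤ p.1 := hp3.1
  rw [← hZ p.1 hp0 p.2] at hp1 hp2
  have b1 := (hanti p.1 hp0).lt_iff_gt.1 hp1
  have b2 := (hanti p.1 hp0).lt_iff_gt.1 hp2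
  rw [Real.dist_eq, abs_lt]
  constructor <;> linarith

theorem Z_c2 {q : ℝ → ℝ} (hq : ContDiff ℝ 2 q) (hneg : ∀ z, deriv q z < 0) {V Y : E N → ℝ}
    (hV : ContDiff ℝ 2 V) (hY : ∀ x, q (Y x) = V x) : ContDiff ℝ 2 Y := by
  have hd : ∀ z, HasStrictDerivAt q (deriv q z) z := fun z =>
    hq.contDiffAt.hasStrictDerivAt (by norm_num)
  have hop : IsOpenMap q := isOpenMap_of_hasStrictDerivAt hd fun z => (hneg z).ne
  have hinj : Function.Injective q := (strictAnti_of_deriv_neg hneg).injective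
  have hemb : IsOpenEmbedding q :=
    IsOpenEmbedding.of_continuous_injective_isOpenMap hq.continuous hinj hop
  set φ := hemb.toOpenPartialHomeomorph q with hφ
  have hsymm : ∀ x, φ.symm (V x) = Y x := by
    intro x
    rw [← hY x]
    exact hemb.toOpenPartialHomeomorph_left_inv q
  have hYe : Y = fun x => φ.symm (V x) := funext fun x => (hsymm x).symm
  rw [contDiff_iff_contDiffAt]
  intro x
  have h1 : ContDiffAt ℝ 2 φ.symm (V x) := by
    refine φ.contDiffAt_symm_deriv (f₀' := deriv q (Y x)) (hneg _).ne ?_ ?_ ?_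
    · rw [hφ, hemb.toOpenPartialHomeomorph_target]
      exact ⟨Y x, hY x⟩
    · rw [hsymm]
      exact (hd (Y x)).hasDerivAt
    · exact hq.contDiffAt
  rw [hYe]
  exact h1.comp x hV.contDiffAt

theorem lap_comp {q : ℝ → ℝ} {Y : E N → ℝ} (hq : ContDiff ℝ 2 q) (hY : ContDiff ℝ 2 Y)
    (x : E N) : Laplacian.laplacian (fun x => q (Y x)) x =
      deriv (deriv q) (Y x) * ‖fderiv ℝ Y x‖ ^ 2 + deriv q (Y x) * Laplacian.laplacian Y x := by
  rw [Pool.Agent.H90.RD.lap_eq_sum, Pool.Agent.H90.RD.lap_eq_sum]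
  have h1 : ∀ v : E N, fderiv ℝ (fderiv ℝ (fun x => q (Y x))) x v v =
      deriv (deriv q) (Y x) * (fderiv ℝ Y x v) ^ 2 +
        deriv q (Y x) * fderiv ℝ (fderiv ℝ Y) x v v := by
    intro v
    have hdY : ∀ t : ℝ, HasDerivAt (fun t : ℝ => Y (x + t • v)) (fderiv ℝ Y (x + t • v) v) t :=
      fun t => Pool.Agent.H90.RD.hasDerivAt_line1 (hY.differentiable (by norm_num) _)
    refine Pool.Agent.H90.RD.line_eq (g := fun x => q (Y x)) (hq.comp hY).contDiffAt
      (p := fun t => deriv q (Y (x + t • v)) * fderiv ℝ Y (x + t • v) v) (fun t => ?_) ?_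
    · exact ((hq.differentiable (by norm_num) _).hasDerivAt).comp t (hdY t)
    · have a1 : HasDerivAt (fun t : ℝ => deriv q (Y (x + t • v)))
          (deriv (deriv q) (Y x) * fderiv ℝ Y x v) 0 := by
        have a2 : Differentiable ℝ (deriv q) :=
          (hq.deriv' (n := 1)).differentiable (by norm_num)
        have a3 := hdY 0
        rw [zero_smul, add_zero] at a3
        have a4 : HasDerivAt (deriv q) (deriv (deriv q) (Y (x + (0 : ℝ) • v)))
            (Y (x + (0 : ℝ) • v)) := (a2 _).hasDerivAt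
        have a5 := a4.comp (0 : ℝ) (hdY 0)
        rw [zero_smul, add_zero] at a5
        exact a5
      have a6 := a1.mul (Pool.Agent.H90.RD.hasDerivAt_line2 hY.contDiffAt v (x := x))
      rw [zero_smul, add_zero] at a6
      refine HasDerivAt.congr_deriv (f := fun t : ℝ => deriv q (Y (x + t • v)) *
        fderiv ℝ Y (x + t • v) v) a6 (by ring)
  simp_rw [h1]
  rw [Finset.sum_add_distrib, ← Finset.mul_sum, ← Finset.mul_sum]
  congr 2
  set g : E N := (InnerProductSpace.toDual ℝ (E N)).symm (fderiv ℝ Y x) with hg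
  have hgL : ∀ v, fderiv ℝ Y x v = inner ℝ g v := fun v => by
    rw [hg, InnerProductSpace.toDual_symm_apply]
  have hgn : ‖fderiv ℝ Y x‖ = ‖g‖ := by rw [hg, LinearIsometryEquiv.norm_map]
  simp_rw [hgL]
  rw [Pool.Agent.H90.RD.sum_inner_sq, hgn]

theorem mvt {g : ℝ → ℝ} (hg : Differentiable ℝ g) (a b : ℝ) :
    ∃ η, |η - a| ≤ |b - a| ∧ g b - g a = deriv g η * (b - a) := by
  rcases lt_trichotomy a b with h | h | h
  · obtain ⟨c, hc, hc2⟩ := exists_deriv_eq_slope g h hg.continuous.continuousOn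
      hg.differentiableOn
    refine ⟨c, ?_, ?_⟩
    · rw [abs_of_pos (by linarith [hc.1]), abs_of_pos (by linarith)]
      linarith [hc.2]
    · rw [hc2]
      have : b - a ≠ 0 := by linarith
      field_simp
  · subst h
    exact ⟨a, by simp, by simp⟩
  · obtain ⟨c, hc, hc2⟩ := exists_deriv_eq_slope g h hg.continuous.continuousOn
      hg.differentiableOn
    refine ⟨c, ?_, ?_⟩
    · rw [abs_of_neg (by linarith [hc.2]), abs_of_neg (by linarith)]
      linarith [hc.1]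
    · rw [hc2]
      have : a - b ≠ 0 := by linarith
      field_simp
      ring

/-- time derivative of the level function -/
theorem Z_dt {Q : ℝ → ℝ → ℝ} {c ζ : ℝ → ℝ} {t c' Qt : ℝ} (ht : 0 < t)
    (hdQ : ∀ s > 0, Differentiable ℝ (Q s)) (hζ : ∀ s > 0, Q s (ζ s) = c s)
    (hζc : ContinuousAt ζ t) (hc : HasDerivAt c c' t) (hQt : HasDerivAt (fun s => Q s (ζ t)) Qt t)
    (hQz : ContinuousAt (fun p : ℝ × ℝ => deriv (Q p.1) p.2) (t, ζ t))
    (hne : deriv (Q t) (ζ t) ≠ 0) : HasDerivAt ζ ((c' - Qt) / deriv (Q t) (ζ t)) t := by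
  have hm : ∀ s : ℝ, ∃ η : ℝ, 0 < s → |η - ζ t| ≤ |ζ s - ζ t| ∧
      Q s (ζ s) - Q s (ζ t) = deriv (Q s) η * (ζ s - ζ t) := by
    intro s
    by_cases hs : 0 < s
    · obtain ⟨η, h1, h2⟩ := mvt (hdQ s hs) (ζ t) (ζ s)
      exact ⟨η, fun _ => ⟨h1, h2⟩⟩
    · exact ⟨0, fun h => absurd h hs⟩
  choose η hη using hm
  have hpos : ∀ᶠ s in 𝓝 t, 0 < s := lt_mem_nhds ht
  have hηt : Tendsto η (𝓝 t) (𝓝 (ζ t)) := by
    rw [tendsto_iff_dist_tendsto_zero]
    have h1 : Tendsto (fun s => |ζ s - ζ t|) (𝓝 t) (𝓝 0) := by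
      have h2 : Tendsto (fun s => |ζ s - ζ t|) (𝓝 t) (𝓝 |ζ t - ζ t|) :=
        (hζc.sub_const (ζ t)).abs
      simpa using h2
    refine tendsto_of_tendsto_of_tendsto_of_le_of_le' tendsto_const_nhds h1
      (Eventually.of_forall fun s => dist_nonneg) ?_
    filter_upwards [hpos] with s hs
    rw [Real.dist_eq]
    exact (hη s hs).1
  have hD : Tendsto (fun s => deriv (Q s) (η s)) (𝓝 t) (𝓝 (deriv (Q t) (ζ t))) :=
    hQz.tendsto.comp (tendsto_id.prodMk_nhds hηt)
  rw [hasDerivAt_iff_tendsto_slope] at hc hQt ⊢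
  have h3 := (hc.sub hQt).div (hD.mono_left nhdsWithin_le_nhds) hne
  refine h3.congr' ?_
  have hev : ∀ᶠ s in 𝓝 t, deriv (Q s) (η s) ≠ 0 := hD.eventually_ne hne
  filter_upwards [hpos.filter_mono nhdsWithin_le_nhds, hev.filter_mono nhdsWithin_le_nhds,
    self_mem_nhdsWithin] with s hs hs2 hs3
  have hst : s - t ≠ 0 := sub_ne_zero.2 hs3
  have e1 := (hη s hs).2
  show (slope c t s - slope (fun s => Q s (ζ t)) t s) / deriv (Q s) (η s) = slope ζ t s
  rw [slope_def_field, slope_def_field, slope_def_field]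
  have e2 : c s - c t - (Q s (ζ t) - Q t (ζ t)) = deriv (Q s) (η s) * (ζ s - ζ t) := by
    rw [← e1, hζ s hs, hζ t ht]
    ring
  rw [← sub_div, e2]
  field_simp

theorem logit_eq {k a z : ℝ} (hk : 0 < k) (h : lgs k z = a) :
    z = -(1 / k) * Real.log (a / (1 - a)) := by
  have he := Real.exp_pos (k * z)
  have h1 : a / (1 - a) = Real.exp (-(k * z)) := by
    rw [← h, Real.exp_neg]
    unfold lgs
    have h2 : 1 - (1 + Real.exp (k * z))⁻¹ = Real.exp (k * z) / (1 + Real.exp (k * z)) := by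
      field_simp
      ring
    rw [h2]
    field_simp
  rw [h1, Real.log_exp]
  field_simp

/-- a function with bounded logit increments is Lipschitz -/
theorem unif_of_logit {k δ : ℝ} {g : E N → ℝ} (hk : 0 < k) (hδ : 0 < δ)
    (hg : ∀ x, δ ≤ g x ∧ g x ≤ 1 - δ)
    (hl : ∀ x y, |Real.log (g x / (1 - g x)) - Real.log (g y / (1 - g y))| ≤ k * ‖x - y‖) :
    UniformContinuous g := by
  have h1 : ∀ x y, g x - g y ≤ k * ‖x - y‖ := by
    intro x y
    rcases le_or_gt (g x) (g y) with h | h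
    · have : 0 ≤ k * ‖x - y‖ := by positivity
      linarith
    · have hx := hg x
      have hy := hg y
      have a0 : 0 < g y := by linarith
      have a1 : 0 < 1 - g x := by linarith
      have a2 : 0 < 1 - g y := by linarith
      have a3 : 0 < g x := by linarith
      have e1 : Real.log (g x / (1 - g x)) - Real.log (g y / (1 - g y)) =
          (Real.log (g x) - Real.log (g y)) + (Real.log (1 - g y) - Real.log (1 - g x)) := by
        rw [Real.log_div a3.ne' a1.ne', Real.log_div a0.ne' a2.ne']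
        ring
      have e2 : 0 ≤ Real.log (1 - g y) - Real.log (1 - g x) := by
        have := Real.log_le_log a1 (by linarith : 1 - g x ≤ 1 - g y)
        linarith
      have e3 : g x - g y ≤ Real.log (g x) - Real.log (g y) := by
        have h2 : Real.log (g y / g x) ≤ g y / g x - 1 :=
          Real.log_le_sub_one_of_pos (by positivity)
        rw [Real.log_div a0.ne' a3.ne'] at h2
        have h3 : g y / g x - 1 = -((g x - g y) / g x) := by field_simp; ring
        have h4 : g x - g y ≤ (g x - g y) / g x := by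
          rw [le_div_iff₀ a3]
          nlinarith
        linarith
      have e4 := (le_abs_self _).trans (hl x y)
      linarith
  have h2 : LipschitzWith (Real.toNNReal k) g := by
    refine LipschitzWith.of_dist_le_mul fun x y => ?_
    rw [Real.dist_eq, Real.coe_toNNReal _ hk.le, dist_eq_norm, abs_le]
    have a1 := h1 x y
    have a2 := h1 y x
    rw [norm_sub_rev] at a2
    constructor <;> linarith
  exact h2.uniformContinuous

theorem stl (hDBL : T_DBL) (hMRG : T_MRG) (hSH : T_SH) : T_STL := by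
  intro N f K k δ Q v hN hfR hf hL hδ hδ2 hv hr hv0 hlog
  have hK := hf.K0
  obtain ⟨m1, m2, -, -, -, -, m7⟩ := hMRG N f K v hfR hf hv hr
  have hvc := m7 (unif_of_logit hL.k0 hδ hv0 hlog)
  have hlow : ∀ t ≥ 0, ∀ x, δ * Real.exp (-(K * t)) ≤ v t x := by
    intro t ht x
    rcases ht.eq_or_lt with h | h
    · rw [← h]; simpa using (hv0 x).1
    · exact v_low hSH hf hv hr (fun y => (hv0 y).1) h x
  have hup : ∀ t ≥ 0, ∀ x, v t x ≤ 1 - δ * Real.exp (-(K * t)) := by
    intro t ht x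
    rcases ht.eq_or_lt with h | h
    · rw [← h]; simpa using (hv0 x).2
    · exact v_up hSH hf hv hr (fun y => (hv0 y).2) h x
  have hex : ∀ t x, ∃ z, 0 ≤ t → Q t z = v t x := by
    intro t x
    by_cases ht : 0 ≤ t
    · have hpos : 0 < δ * Real.exp (-(K * t)) := by positivity
      obtain ⟨z, hz⟩ := Q_ex hL ht (a := v t x) (by linarith [hlow t ht x])
        (by linarith [hup t ht x])
      exact ⟨z, fun _ => hz⟩
    · exact ⟨0, fun h => absurd h ht⟩
  choose Z hZ' using hex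
  have hZ : ∀ t ≥ 0, ∀ x, Q t (Z t x) = v t x := fun t ht x => hZ' t x ht
  have hanti : ∀ t ≥ 0, StrictAnti (Q t) := fun t ht => Q_anti hL ht
  have hZc := Z_cont hL.cont0 hvc hanti hZ
  intro T hT x y z hz
  -- bounds of the level function
  set a0 : ℝ := δ * Real.exp (-(K * T)) with ha0
  have ha0p : 0 < a0 := by rw [ha0]; positivity
  obtain ⟨n1, hn1⟩ := Q_unif_top hL (T := T) ha0p
  obtain ⟨n2, hn2⟩ := Q_unif_bot hL (T := T) ha0p
  set Zm : ℝ := n1 + n2 + 1 with hZm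
  have hZm0 : 0 < Zm := by rw [hZm]; positivity
  have hexpT : ∀ t ∈ Icc 0 T, a0 ≤ δ * Real.exp (-(K * t)) := by
    intro t ht
    rw [ha0]
    refine mul_le_mul_of_nonneg_left (Real.exp_le_exp.2 ?_) hδ.le
    nlinarith [ht.2]
  have hZb : ∀ t ∈ Icc 0 T, ∀ x, |Z t x| ≤ Zm := by
    intro t ht x
    have h1 : Z t x < n1 := by
      by_contra hcon
      push Not at hcon
      have h2 := (hanti t ht.1).antitone hcon
      rw [hZ t ht.1 x] at h2
      linarith [hn1 t ht, hlow t ht.1 x, hexpT t ht]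
    have h3 : -(n2 : ℝ) < Z t x := by
      by_contra hcon
      push Not at hcon
      have h2 := (hanti t ht.1).antitone hcon
      rw [hZ t ht.1 x] at h2
      linarith [hn2 t ht, hup t ht.1 x, hexpT t ht]
    have k1 : (0 : ℝ) ≤ n1 := Nat.cast_nonneg _
    have k2 : (0 : ℝ) ≤ n2 := Nat.cast_nonneg _
    rw [abs_le]
    constructor <;> linarith
  obtain ⟨A, hA⟩ := hL.bnd T hT Zm hZm0
  have hQ2 : ∀ t > 0, ContDiff ℝ 2 (Q t) := hL.sol.c2
  have hneg : ∀ t > 0, ∀ z, deriv (Q t) z < 0 := hL.sol.neg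
  have hZ2 : ∀ t > 0, ContDiff ℝ 2 (Z t) := fun t ht =>
    Z_c2 (hQ2 t ht) (hneg t ht) (m1 t ht) (fun x => hZ t ht.le x)
  classical
  set a : ℝ → ℝ → ℝ := fun t s => if 0 < t ∧ t ≤ T ∧ |s| ≤ Zm then
    deriv (deriv (Q t)) s / deriv (Q t) s else 0 with ha
  have key := hDBL N T Zm (max A 0) Z a hT
    (hZc.mono (prod_mono (fun t ht => ht.1) (subset_refl _))) hZb ?_
    (fun t ht => hZ2 t ht.1) ?_ ?_
  · -- conclusion
    have h1 := key T ⟨hT.le, le_rfl⟩ x y
    have h2 : Z T x = z := by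
      have h3 := hZ T hT.le x
      rw [hz] at h3
      exact (hanti T hT.le).injective h3
    rw [h2, abs_le] at h1
    rw [dist_eq_norm, ← hZ T hT.le y]
    apply (hanti T hT.le).antitone
    linarith [h1.1]
  · intro x y
    have h1 : ∀ x, Z 0 x = -(1 / k) * Real.log (v 0 x / (1 - v 0 x)) := by
      intro x
      apply logit_eq hL.k0
      rw [← hL.zero, hZ 0 le_rfl x]
    rw [h1, h1]
    have e1 : -(1 / k) * Real.log (v 0 x / (1 - v 0 x)) -
        -(1 / k) * Real.log (v 0 y / (1 - v 0 y)) =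
        -(1 / k) * (Real.log (v 0 x / (1 - v 0 x)) - Real.log (v 0 y / (1 - v 0 y))) := by ring
    rw [e1, abs_mul, abs_neg, abs_of_pos (by have := hL.k0; positivity : 0 < 1 / k)]
    have h2 := hlog x y
    have h3 : 1 / k * (k * ‖x - y‖) = ‖x - y‖ := by
      have := hL.k0
      field_simp
    rw [← h3]
    exact mul_le_mul_of_nonneg_left h2 (by have := hL.k0; positivity)
  · intro t s
    rw [ha]
    simp only
    split_ifs with h
    · have h1 := hA t ⟨h.1, h.2.1⟩ s h.2.2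
      have h2 : 0 < -deriv (Q t) s := by linarith [hneg t h.1 s]
      rw [abs_div, ← abs_neg (deriv (Q t) s), abs_of_pos h2, div_le_iff₀ h2]
      exact h1.trans (mul_le_mul_of_nonneg_right (le_max_left _ _) h2.le)
    · rw [abs_zero]; exact le_max_right _ _
  · intro t ht x
    have ht0 : 0 < t := ht.1
    have hQd := hneg t ht0 (Z t x)
    have c1 : ContinuousAt (fun s => Z s x) t := by
      have h1 : ContinuousAt (fun p : ℝ × E N => Z p.1 p.2) (t, x) :=
        hZc.continuousAt (prod_mem_nhds (Ici_mem_nhds ht0) univ_mem)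
      exact ContinuousAt.comp (f := fun s : ℝ => (s, x)) h1 (by fun_prop)
    have c2 := m2 t ht0 x
    have c3 := hL.sol.eqn t ht0 (Z t x)
    have c4 : ContinuousAt (fun p : ℝ × ℝ => deriv (Q p.1) p.2) (t, Z t x) :=
      hL.sol.contz.continuousAt (prod_mem_nhds (Ioi_mem_nhds ht0) univ_mem)
    have c5 := Z_dt (Q := Q) (c := fun s => v s x) (ζ := fun s => Z s x) ht0
      (fun s hs => (hQ2 s hs).differentiable (by norm_num)) (fun s hs => hZ s hs.le x) c1 c2 c3
      c4 hQd.ne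
    have hfun : (fun x => Q t (Z t x)) = v t := funext fun x => hZ t ht0.le x
    have c6 := lap_comp (hQ2 t ht0) (hZ2 t ht0) x
    rw [hfun] at c6
    have c7 : a t (Z t x) = deriv (deriv (Q t)) (Z t x) / deriv (Q t) (Z t x) := by
      rw [ha]
      simp only
      rw [if_pos ⟨ht0, ht.2, hZb t ⟨ht0.le, ht.2⟩ x⟩]
    refine c5.congr_deriv ?_
    rw [c6, c7, hZ t ht0.le x]
    have := hQd.ne
    field_simp
    ring

end Pool.Agent.H30.RF.STL
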